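import Pool.Agent.Helper14_Pack.A3

/-!
# A5: the area of the container
-/

namespace Pool.Agent.Helper14_Pack

open MeasureTheory Set Pool.Agent.Helper2_Pack

theorem tents_mono {g g' : ℝ} (h : g ≤ g') (L : List (ℝ × ℝ)) (x : ℝ) :
    tents g L x ≤ tents g' L x := by
  induction L with
  | nil => exact h
  | cons d L ih => exact max_le_max le_rfl ih

theorem locFloor_cont (q : ℝ) (a : Col) : Continuous (locFloor q a) := tents_cont _ _

theorem locCeil_cont (q : ℝ) (t : Top) : Continuous (locCeil q t) := by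
  cases t with
  | flat a o =>
    have : locCeil q (.flat a o) = fun x =>
      max (o * q ^ 4 * min 1 (min (x / (4 * q ^ 3)) ((1 - x) / (4 * q ^ 3))))
        (tents (o * q ^ 4 - 1) (a.marks.map fun p : ℕ => ((p : ℝ) / 32, o * q ^ 4 + q + q ^ 3)) x) := rfl
    rw [this]
    exact Continuous.max (by fun_prop) (tents_cont _ _)
  | portL σ =>
    have : locCeil q (.portL σ) = fun x => max (max (q ^ 3 * min 1 (x / (4 * q ^ 3)))
      (tents 0 (((pcol σ).marks.filter (fun p : ℕ => p < 16)).map fun p : ℕ => ((p : ℝ) / 32, q + 2 * q ^ 3)) x))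
      (min (1 + q ^ 3) (q ^ 3 + (x - 1 / 2 + 2 * q ^ 3) / q ^ 3)) := rfl
    rw [this]
    exact Continuous.max (Continuous.max (by fun_prop) (tents_cont _ _)) (by fun_prop)
  | portR σ =>
    have : locCeil q (.portR σ) = fun x => max (max (q ^ 3 * min 1 ((1 - x) / (4 * q ^ 3)))
      (tents 0 (((pcol σ).marks.filter (fun p : ℕ => 16 < p)).map fun p : ℕ => ((p : ℝ) / 32, q + 2 * q ^ 3)) x))
      (min (min (1 + q ^ 3) (q ^ 3 + (1 / 2 + 2 * q ^ 3 - x) / q ^ 3))
        (piv q σ + (1 + q ^ 3 - piv q σ) * |x - 4 / 32| / q ^ 3)) := rfl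
    rw [this]
    exact Continuous.max (Continuous.max (by fun_prop) (tents_cont _ _)) (by fun_prop)

/-- the walls of a room -/
noncomputable def wall (κ x : ℝ) : ℝ := max 0 (min (1 + κ) (κ + (x - 1 / 2 + 2 * κ) / κ))

theorem wall_cont (κ : ℝ) : Continuous (wall κ) := by
  unfold wall
  fun_prop

theorem int_wall {κ : ℝ} (hk : 0 < κ) (hk1 : κ ≤ 1 / 100) :
    ∫ x in (0:ℝ)..1, wall κ x ≤ (1 + κ) * (1 / 2 + 3 * κ) := by
  have hi : ∀ c d, IntervalIntegrable (wall κ) volume c d :=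
    fun c d => (wall_cont κ).intervalIntegrable c d
  rw [← intervalIntegral.integral_add_adjacent_intervals (hi 0 (1 / 2 - 3 * κ))
    (hi (1 / 2 - 3 * κ) 1)]
  have e1 : ∫ x in (0:ℝ)..(1 / 2 - 3 * κ), wall κ x = 0 := by
    rw [intervalIntegral.integral_congr (g := fun _ => (0 : ℝ))]
    · simp
    · intro x hx
      rw [uIcc_of_le (by linarith)] at hx
      refine max_eq_left ((min_le_right _ _).trans ?_)
      have : (x - 1 / 2 + 2 * κ) / κ ≤ -1 := by
        rw [div_le_iff₀ hk]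
        linarith [hx.2]
      linarith only [hk1, this]
  have e2 : ∫ x in (1 / 2 - 3 * κ)..1, wall κ x ≤ (1 + κ) * (1 / 2 + 3 * κ) := by
    have h2 : ∫ x in (1 / 2 - 3 * κ)..1, wall κ x ≤ ∫ x in (1 / 2 - 3 * κ)..1, (1 + κ : ℝ) := by
      refine intervalIntegral.integral_mono_on (by linarith) (hi _ _) (by simp) ?_
      intro x hx
      exact max_le (by linarith) (min_le_left _ _)
    refine h2.trans ?_
    rw [intervalIntegral.integral_const, smul_eq_mul]
    nlinarith
  linarith only [e1, e2]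

theorem int_wall' {κ : ℝ} (hk : 0 < κ) (hk1 : κ ≤ 1 / 100) :
    ∫ x in (0:ℝ)..1, wall κ (1 - x) ≤ (1 + κ) * (1 / 2 + 3 * κ) := by
  have h := intervalIntegral.integral_comp_sub_left (a := 0) (b := 1) (wall κ) 1
  rw [h]
  simp only [sub_self, sub_zero]
  exact int_wall hk hk1

theorem filter_len (a : Col) (P : ℕ → Bool) : ((a.marks.filter P).length : ℝ) ≤ 4 := by
  have h1 := List.length_filter_le P a.marks
  have h2 := marks_len a
  exact_mod_cast h1.trans h2

/-- the area above a column -/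
theorem int_ceil {q : ℝ} (hq : 0 < q) (hq1 : q ≤ 1 / 2 ^ 20) (t : Top)
    (ht : ∀ a o, t = .flat a o → (o = -1 ∨ o = 0 ∨ o = 1)) :
    ∫ x in (0:ℝ)..1, locCeil q t x ≤ colA q t := by
  have hk : 0 < q ^ 3 := pow_pos hq 3
  have hkq : q ^ 3 ≤ q * (1 / 2 ^ 20) ^ 2 := by
    have : q ^ 3 = q * (q * q) := by ring
    rw [this]
    refine mul_le_mul_of_nonneg_left ?_ hq.le
    nlinarith only [hq1, hq]
  have hk1 : q ^ 3 ≤ 1 / 100 := by linarith only [hq1, hkq]
  have h4 : q ^ 4 = q ^ 3 * q := by ring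
  have h40 : 0 < q ^ 4 := pow_pos hq 4
  cases t with
  | flat a o =>
    have ho := ht a o rfl
    have ho1 : ((o : ℤ) : ℝ) ≤ 1 ∧ -1 ≤ ((o : ℤ) : ℝ) := by
      rcases ho with rfl | rfl | rfl <;> norm_num
    set L : List (ℝ × ℝ) := a.marks.map fun p : ℕ => ((p : ℝ) / 32, o * q ^ 4 + q + q ^ 3) with hL
    have hLd : ∀ d ∈ L, q ^ 4 ≤ d.2 ∧ d.2 - q ^ 4 ≤ q + q ^ 3 := by
      intro d hd
      obtain ⟨p, hp, rfl⟩ := List.mem_map.1 hd
      constructor
      · show q ^ 4 ≤ o * q ^ 4 + q + q ^ 3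
        have : -(q ^ 4) ≤ o * q ^ 4 := by nlinarith only [h40, ho1]
        nlinarith only [hk, this, hq, hq1]
      · show o * q ^ 4 + q + q ^ 3 - q ^ 4 ≤ q + q ^ 3
        have : o * q ^ 4 ≤ q ^ 4 := by nlinarith only [h40, ho1]
        linarith
    have h1 : ∫ x in (0:ℝ)..1, locCeil q (.flat a o) x ≤ ∫ x in (0:ℝ)..1, (q ^ 4 + bs (q ^ 4) L x) := by
      refine intervalIntegral.integral_mono_on zero_le_one
        ((locCeil_cont _ _).intervalIntegrable _ _)
        ((continuous_const.add (bs_cont _ _)).intervalIntegrable _ _) ?_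
      intro x hx
      have e1 : locCeil q (.flat a o) x =
        max (o * q ^ 4 * min 1 (min (x / (4 * q ^ 3)) ((1 - x) / (4 * q ^ 3))))
          (tents (o * q ^ 4 - 1) L x) := rfl
      have m0 : 0 ≤ min 1 (min (x / (4 * q ^ 3)) ((1 - x) / (4 * q ^ 3))) :=
        le_min zero_le_one (le_min (div_nonneg hx.1 (by positivity))
          (div_nonneg (by linarith [hx.2]) (by positivity)))
      have m1 : min 1 (min (x / (4 * q ^ 3)) ((1 - x) / (4 * q ^ 3))) ≤ 1 := min_le_left _ _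
      have e2 := tents_mono (g := o * q ^ 4 - 1) (g' := q ^ 4) (by nlinarith only [h40, ho1]) L x
      have e3 := tents_le (q ^ 4) L x
      have e4 := bs_nonneg (q ^ 4) L x
      rw [e1]
      refine max_le ?_ (e2.trans e3)
      have : o * q ^ 4 * min 1 (min (x / (4 * q ^ 3)) ((1 - x) / (4 * q ^ 3))) ≤ q ^ 4 := by
        calc o * q ^ 4 * min 1 (min (x / (4 * q ^ 3)) ((1 - x) / (4 * q ^ 3))) ≤
            q ^ 4 * min 1 (min (x / (4 * q ^ 3)) ((1 - x) / (4 * q ^ 3))) :=
              mul_le_mul_of_nonneg_right (by nlinarith only [h40, ho1]) m0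
          _ ≤ q ^ 4 * 1 := mul_le_mul_of_nonneg_left m1 h40.le
          _ = q ^ 4 := mul_one _
      linarith only [e4, this]
    refine h1.trans ?_
    rw [intervalIntegral.integral_add (by simp) ((bs_cont _ _).intervalIntegrable _ _),
      intervalIntegral.integral_const]
    have k1 : ∫ x in (0:ℝ)..1, bs (q ^ 4) L x ≤ a.marks.length * (q + q ^ 3) ^ 2 := by
      refine (int_bs_le (fun d hd => (hLd d hd).1) zero_le_one).trans ?_
      have hl : (L.length : ℝ) = a.marks.length := by rw [hL, List.length_map]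
      rw [← hl]
      refine sum_map_le fun d hd => ?_
      have := hLd d hd
      exact pow_le_pow_left₀ (by linarith only [this.1]) this.2 2
    have hlen' : ((a.marks.length : ℕ) : ℝ) ≤ 4 := by exact_mod_cast marks_len a
    have hlen0 : (0 : ℝ) ≤ ((a.marks.length : ℕ) : ℝ) := Nat.cast_nonneg _
    show ((1:ℝ) - 0) • (q ^ 4) + _ ≤ a.marks.length * q ^ 2 + 2 * q ^ 3
    have k2 : ((1:ℝ) - 0) • (q ^ 4) = q ^ 3 * q := by simp [h4]
    rw [k2]
    have k7 : a.marks.length * (q + q ^ 3) ^ 2 ≤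
        a.marks.length * q ^ 2 + 4 * (2 * q * q ^ 3 + (q ^ 3) ^ 2) := by
      have : (q + q ^ 3) ^ 2 = q ^ 2 + (2 * q * q ^ 3 + (q ^ 3) ^ 2) := by ring
      rw [this, mul_add]
      have h0 : (0:ℝ) ≤ 2 * q * q ^ 3 + (q ^ 3) ^ 2 := by positivity
      nlinarith only [hlen', h40]
    have k8 : q ^ 3 * q + 4 * (2 * q * q ^ 3 + (q ^ 3) ^ 2) ≤ 2 * q ^ 3 := by
      have : q ^ 3 * q + 4 * (2 * q * q ^ 3 + (q ^ 3) ^ 2) = q ^ 3 * (9 * q + 4 * q ^ 3) := by ring
      rw [this]
      nlinarith only [hkq, hq, h40, hq1]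
    linarith
  | portL σ =>
    set L : List (ℝ × ℝ) := ((pcol σ).marks.filter (fun p : ℕ => p < 16)).map
      fun p : ℕ => ((p : ℝ) / 32, q + 2 * q ^ 3) with hL
    have h1 : ∫ x in (0:ℝ)..1, locCeil q (.portL σ) x ≤
        ∫ x in (0:ℝ)..1, (q ^ 3 + bs 0 L x + wall (q ^ 3) x) := by
      refine intervalIntegral.integral_mono_on zero_le_one
        ((locCeil_cont _ _).intervalIntegrable _ _)
        (((continuous_const.add (bs_cont _ _)).add (wall_cont _)).intervalIntegrable _ _) ?_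
      intro x hx
      have e1 : locCeil q (.portL σ) x = max (max (q ^ 3 * min 1 (x / (4 * q ^ 3))) (tents 0 L x))
        (min (1 + q ^ 3) (q ^ 3 + (x - 1 / 2 + 2 * q ^ 3) / q ^ 3)) := rfl
      have e3 := tents_le 0 L x
      have e4 := bs_nonneg 0 L x
      have e5 : 0 ≤ wall (q ^ 3) x := le_max_left _ _
      have e6 : min (1 + q ^ 3) (q ^ 3 + (x - 1 / 2 + 2 * q ^ 3) / q ^ 3) ≤ wall (q ^ 3) x :=
        le_max_right _ _
      have e7 : q ^ 3 * min 1 (x / (4 * q ^ 3)) ≤ q ^ 3 := by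
        have := mul_le_mul_of_nonneg_left (min_le_left 1 (x / (4 * q ^ 3))) hk.le
        rwa [mul_one] at this
      rw [e1]
      exact max_le (max_le (by linarith only [e4, e5, e7]) (by linarith only [hk, e3, e5])) (by linarith only [hk, e4, e6])
    refine h1.trans ?_
    have i1 : IntervalIntegrable (fun x => q ^ 3 + bs 0 L x) volume 0 1 :=
      (continuous_const.add (bs_cont _ _)).intervalIntegrable _ _
    rw [intervalIntegral.integral_add i1 ((wall_cont _).intervalIntegrable _ _),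
      intervalIntegral.integral_add (by simp) ((bs_cont _ _).intervalIntegrable _ _),
      intervalIntegral.integral_const]
    have k1 : ∫ x in (0:ℝ)..1, bs 0 L x ≤
        ((pcol σ).marks.filter (fun p : ℕ => p < 16)).length * (q + 2 * q ^ 3) ^ 2 := by
      have hLd : ∀ d ∈ L, 0 ≤ d.2 ∧ d.2 - 0 = q + 2 * q ^ 3 := by
        intro d hd
        obtain ⟨p, hp, rfl⟩ := List.mem_map.1 hd
        exact ⟨by positivity, by simp⟩
      refine (int_bs_le (fun d hd => (hLd d hd).1) zero_le_one).trans ?_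
      have hl : (L.length : ℝ) = ((pcol σ).marks.filter (fun p : ℕ => p < 16)).length := by
        rw [hL, List.length_map]
      rw [← hl]
      refine sum_map_le fun d hd => ?_
      rw [(hLd d hd).2]
    have k2 := int_wall hk hk1
    have hl4 := filter_len (pcol σ) (fun p : ℕ => p < 16)
    have hl0 : (0 : ℝ) ≤ ((pcol σ).marks.filter (fun p : ℕ => p < 16)).length := Nat.cast_nonneg _
    show ((1:ℝ) - 0) • (q ^ 3) + _ + _ ≤
      1 / 2 + ((pcol σ).marks.filter (fun p : ℕ => p < 16)).length * q ^ 2 + 6 * q ^ 3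
    have k3 : ((1:ℝ) - 0) • (q ^ 3) = q ^ 3 := by simp
    rw [k3]
    set ℓ : ℝ := ((((pcol σ).marks.filter (fun p : ℕ => p < 16)).length : ℕ) : ℝ) with hℓ
    have k7 : ℓ * (q + 2 * q ^ 3) ^ 2 ≤ ℓ * q ^ 2 + 4 * (4 * q * q ^ 3 + 4 * (q ^ 3) ^ 2) := by
      have : (q + 2 * q ^ 3) ^ 2 = q ^ 2 + (4 * q * q ^ 3 + 4 * (q ^ 3) ^ 2) := by ring
      rw [this, mul_add]
      have h0 : (0:ℝ) ≤ 4 * q * q ^ 3 + 4 * (q ^ 3) ^ 2 := by positivity
      nlinarith only [hl4, h40]
    have k8 : q ^ 3 + (1 + q ^ 3) * (1 / 2 + 3 * q ^ 3) + 4 * (4 * q * q ^ 3 + 4 * (q ^ 3) ^ 2) ≤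
        1 / 2 + 6 * q ^ 3 := by
      have : q ^ 3 + (1 + q ^ 3) * (1 / 2 + 3 * q ^ 3) + 4 * (4 * q * q ^ 3 + 4 * (q ^ 3) ^ 2) =
        1 / 2 + q ^ 3 * (9 / 2 + 16 * q + 19 * q ^ 3) := by ring
      rw [this]
      nlinarith only [hkq, hq, h40, hq1]
    linarith
  | portR σ =>
    set L : List (ℝ × ℝ) := ((pcol σ).marks.filter (fun p : ℕ => 16 < p)).map
      fun p : ℕ => ((p : ℝ) / 32, q + 2 * q ^ 3) with hL
    have wc : Continuous fun x => wall (q ^ 3) (1 - x) :=
      (wall_cont _).comp (continuous_const.sub continuous_id)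
    have h1 : ∫ x in (0:ℝ)..1, locCeil q (.portR σ) x ≤
        ∫ x in (0:ℝ)..1, (q ^ 3 + bs 0 L x + wall (q ^ 3) (1 - x)) := by
      refine intervalIntegral.integral_mono_on zero_le_one
        ((locCeil_cont _ _).intervalIntegrable _ _)
        (((continuous_const.add (bs_cont _ _)).add wc).intervalIntegrable _ _) ?_
      intro x hx
      have e1 : locCeil q (.portR σ) x = max (max (q ^ 3 * min 1 ((1 - x) / (4 * q ^ 3)))
        (tents 0 L x)) (min (min (1 + q ^ 3) (q ^ 3 + (1 / 2 + 2 * q ^ 3 - x) / q ^ 3))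
        (piv q σ + (1 + q ^ 3 - piv q σ) * |x - 4 / 32| / q ^ 3)) := rfl
      have e3 := tents_le 0 L x
      have e4 := bs_nonneg 0 L x
      have e5 : 0 ≤ wall (q ^ 3) (1 - x) := le_max_left _ _
      have e6 : min (1 + q ^ 3) (q ^ 3 + (1 / 2 + 2 * q ^ 3 - x) / q ^ 3) ≤
          wall (q ^ 3) (1 - x) := by
        have : 1 / 2 + 2 * q ^ 3 - x = 1 - x - 1 / 2 + 2 * q ^ 3 := by ring
        rw [this]
        exact le_max_right _ _
      have e7 : q ^ 3 * min 1 ((1 - x) / (4 * q ^ 3)) ≤ q ^ 3 := by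
        have := mul_le_mul_of_nonneg_left (min_le_left 1 ((1 - x) / (4 * q ^ 3))) hk.le
        rwa [mul_one] at this
      rw [e1]
      exact max_le (max_le (by linarith only [e4, e5, e7]) (by linarith only [hk, e3, e5]))
        ((min_le_left _ _).trans (by linarith only [hk, e4, e6]))
    refine h1.trans ?_
    have i1 : IntervalIntegrable (fun x => q ^ 3 + bs 0 L x) volume 0 1 :=
      (continuous_const.add (bs_cont _ _)).intervalIntegrable _ _
    rw [intervalIntegral.integral_add i1 (wc.intervalIntegrable _ _),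
      intervalIntegral.integral_add (by simp) ((bs_cont _ _).intervalIntegrable _ _),
      intervalIntegral.integral_const]
    have k1 : ∫ x in (0:ℝ)..1, bs 0 L x ≤
        ((pcol σ).marks.filter (fun p : ℕ => 16 < p)).length * (q + 2 * q ^ 3) ^ 2 := by
      have hLd : ∀ d ∈ L, 0 ≤ d.2 ∧ d.2 - 0 = q + 2 * q ^ 3 := by
        intro d hd
        obtain ⟨p, hp, rfl⟩ := List.mem_map.1 hd
        exact ⟨by positivity, by simp⟩
      refine (int_bs_le (fun d hd => (hLd d hd).1) zero_le_one).trans ?_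
      have hl : (L.length : ℝ) = ((pcol σ).marks.filter (fun p : ℕ => 16 < p)).length := by
        rw [hL, List.length_map]
      rw [← hl]
      refine sum_map_le fun d hd => ?_
      rw [(hLd d hd).2]
    have k2 := int_wall' hk hk1
    have hl4 := filter_len (pcol σ) (fun p : ℕ => 16 < p)
    have hl0 : (0 : ℝ) ≤ ((pcol σ).marks.filter (fun p : ℕ => 16 < p)).length := Nat.cast_nonneg _
    show ((1:ℝ) - 0) • (q ^ 3) + _ + _ ≤
      1 / 2 + ((pcol σ).marks.filter (fun p : ℕ => 16 < p)).length * q ^ 2 + 6 * q ^ 3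
    have k3 : ((1:ℝ) - 0) • (q ^ 3) = q ^ 3 := by simp
    rw [k3]
    set ℓ : ℝ := ((((pcol σ).marks.filter (fun p : ℕ => 16 < p)).length : ℕ) : ℝ) with hℓ
    have k7 : ℓ * (q + 2 * q ^ 3) ^ 2 ≤ ℓ * q ^ 2 + 4 * (4 * q * q ^ 3 + 4 * (q ^ 3) ^ 2) := by
      have : (q + 2 * q ^ 3) ^ 2 = q ^ 2 + (4 * q * q ^ 3 + 4 * (q ^ 3) ^ 2) := by ring
      rw [this, mul_add]
      have h0 : (0:ℝ) ≤ 4 * q * q ^ 3 + 4 * (q ^ 3) ^ 2 := by positivity
      nlinarith only [hl4, h40]
    have k8 : q ^ 3 + (1 + q ^ 3) * (1 / 2 + 3 * q ^ 3) + 4 * (4 * q * q ^ 3 + 4 * (q ^ 3) ^ 2) ≤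
        1 / 2 + 6 * q ^ 3 := by
      have : q ^ 3 + (1 + q ^ 3) * (1 / 2 + 3 * q ^ 3) + 4 * (4 * q * q ^ 3 + 4 * (q ^ 3) ^ 2) =
        1 / 2 + q ^ 3 * (9 / 2 + 16 * q + 19 * q ^ 3) := by ring
      rw [this]
      nlinarith only [hkq, hq, h40, hq1]
    linarith

/-- the floor -/
theorem int_floor {q : ℝ} (hq : 0 < q) (hq1 : q ≤ 1 / 2 ^ 20) (a : Col) :
    (a.marks.length : ℝ) * q ^ 2 ≤ ∫ x in (0:ℝ)..1, locFloor q a x := by
  have h1 : ∫ x in (0:ℝ)..1, bs 0 (bumps q a) x ≤ ∫ x in (0:ℝ)..1, locFloor q a x := by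
    refine intervalIntegral.integral_mono_on zero_le_one
      ((bs_cont _ _).intervalIntegrable _ _) ((locFloor_cont _ _).intervalIntegrable _ _) ?_
    intro x hx
    have := le_tents (g := 0) (L := bumps q a) (sep_marks (q := q) a (by linarith)) x
    rw [zero_add] at this
    exact this
  refine le_trans (le_of_eq ?_) h1
  have := int_marks (h := q) (g := 0) (a := 0) (b := 1) a (by linarith) (by linarith)
    (by norm_num) (by norm_num)
  rw [sub_zero] at this
  exact this.symm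

theorem locFloor_le {q : ℝ} (hq : 0 < q) (hq1 : q ≤ 1 / 2 ^ 20) (a : Col) (x : ℝ) :
    locFloor q a x ≤ 1 / 4 := by
  unfold locFloor
  have : ∀ L : List (ℝ × ℝ), (∀ d ∈ L, d.2 ≤ 1 / 4) → tents 0 L x ≤ 1 / 4 := by
    intro L
    induction L with
    | nil => intro _; show (0:ℝ) ≤ _; norm_num
    | cons d L ih =>
      intro h
      refine max_le ?_ (ih fun e he => h e (List.mem_cons_of_mem _ he))
      have := h d (by simp)
      linarith only [this, abs_nonneg (x - d.1)]
  apply this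
  intro d hd
  obtain ⟨p, hp, rfl⟩ := List.mem_map.1 hd
  show q ≤ 1 / 4
  linarith

theorem le_locCeil {q : ℝ} (hq : 0 < q) (hq1 : q ≤ 1 / 2 ^ 20) (t : Top)
    (ht : ∀ a o, t = .flat a o → (o = -1 ∨ o = 0 ∨ o = 1)) {x : ℝ} (h0 : 0 ≤ x) (h1 : x ≤ 1) :
    -(1 / 4) ≤ locCeil q t x := by
  have hk : 0 < q ^ 3 := pow_pos hq 3
  have h4 : q ^ 4 ≤ 1 / 4 := by
    have : q ^ 4 ≤ 1 * q := by
      have h3 : q ^ 3 ≤ 1 := pow_le_one₀ hq.le (by linarith)
      calc q ^ 4 = q ^ 3 * q := by ring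
        _ ≤ 1 * q := mul_le_mul_of_nonneg_right h3 hq.le
    linarith
  have h40 : 0 < q ^ 4 := pow_pos hq 4
  cases t with
  | flat a o =>
    have ho := ht a o rfl
    have ho1 : -1 ≤ ((o : ℤ) : ℝ) := by
      rcases ho with rfl | rfl | rfl <;> norm_num
    refine le_max_of_le_left ?_
    have m0 : 0 ≤ min 1 (min (x / (4 * q ^ 3)) ((1 - x) / (4 * q ^ 3))) :=
      le_min zero_le_one (le_min (div_nonneg h0 (by positivity))
        (div_nonneg (by linarith) (by positivity)))
    have m1 : min 1 (min (x / (4 * q ^ 3)) ((1 - x) / (4 * q ^ 3))) ≤ 1 := min_le_left _ _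
    set μ := min 1 (min (x / (4 * q ^ 3)) ((1 - x) / (4 * q ^ 3))) with hμ
    have : -(q ^ 4) * μ ≤ o * q ^ 4 * μ := mul_le_mul_of_nonneg_right (by nlinarith only [h40, ho1]) m0
    nlinarith only [m1, this, h4, m0]
  | portL σ =>
    refine le_max_of_le_left (le_max_of_le_left ?_)
    have : 0 ≤ q ^ 3 * min 1 (x / (4 * q ^ 3)) :=
      mul_nonneg hk.le (le_min zero_le_one (div_nonneg h0 (by positivity)))
    linarith
  | portR σ =>
    refine le_max_of_le_left (le_max_of_le_left ?_)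
    have : 0 ≤ q ^ 3 * min 1 ((1 - x) / (4 * q ^ 3)) :=
      mul_nonneg hk.le (le_min zero_le_one (div_nonneg (by linarith) (by positivity)))
    linarith

/-- a column of the container -/
noncomputable def colset (q : ℝ) (G : Layout) (c : ℕ) : Set ℂ :=
  btw c (c + 1) (fun x => locFloor q (G.ty c 0).bot (x - c))
    (fun x => G.N + locCeil q (G.top c) (x - c))

theorem small_le {q : ℝ} {G : Layout} (h : Small q G) : q ≤ 1 / 2 ^ 20 := by
  have h1 := h.small
  have h2 : (2:ℝ) ^ 20 ≤ 2 ^ (8 * G.K + 60) := pow_le_pow_right₀ (by norm_num) (by omega)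
  rw [le_div_iff₀ (by positivity)]
  exact (mul_le_mul_of_nonneg_left h2 h.pos.le).trans h1

theorem N_pos (G : Layout) : (1 : ℝ) ≤ G.N := by
  have : 1 ≤ G.N := by unfold Layout.N; omega
  exact_mod_cast this

theorem vol_col {q : ℝ} {G : Layout} (hG : G.OK) (hs : Small q G) {c : ℕ} (hc : c < G.M) :
    volume (colset q G c) ≤ ENNReal.ofReal (G.N +
      (colA q (G.top c) - (G.ty c 0).bot.marks.length * q ^ 2)) := by
  have hq := hs.pos
  have hq1 := small_le hs
  have ht : ∀ a o, G.top c = .flat a o → (o = -1 ∨ o = 0 ∨ o = 1) :=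
    fun a o h => (hG.flat c a o hc h).2
  have hN := N_pos G
  have hf : Continuous fun x : ℝ => locFloor q (G.ty c 0).bot (x - c) :=
    (locFloor_cont _ _).comp (continuous_id.sub continuous_const)
  have hg' : Continuous fun x : ℝ => locCeil q (G.top c) (x - c) :=
    (locCeil_cont _ _).comp (continuous_id.sub continuous_const)
  have hg : Continuous fun x : ℝ => (G.N : ℝ) + locCeil q (G.top c) (x - c) :=
    continuous_const.add hg'
  unfold colset
  rw [vol_btw (by linarith) hf hg]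
  · apply ENNReal.ofReal_le_ofReal
    rw [intervalIntegral.integral_sub (hg.intervalIntegrable _ _) (hf.intervalIntegrable _ _),
      intervalIntegral.integral_add (by simp) (hg'.intervalIntegrable _ _),
      intervalIntegral.integral_const]
    have e1 : ∫ x in (c:ℝ)..(c + 1), locCeil q (G.top c) (x - c) =
        ∫ x in (0:ℝ)..1, locCeil q (G.top c) x := by
      rw [intervalIntegral.integral_comp_sub_right (fun x => locCeil q (G.top c) x)]
      simp
    have e2 : ∫ x in (c:ℝ)..(c + 1), locFloor q (G.ty c 0).bot (x - c) =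
        ∫ x in (0:ℝ)..1, locFloor q (G.ty c 0).bot x := by
      rw [intervalIntegral.integral_comp_sub_right (fun x => locFloor q (G.ty c 0).bot x)]
      simp
    rw [e1, e2]
    have h1 := int_ceil hq hq1 (G.top c) ht
    have h2 := int_floor hq hq1 (G.ty c 0).bot
    have e3 : ((c:ℝ) + 1 - c) • (G.N : ℝ) = G.N := by simp
    rw [e3]
    linarith only [h1, h2]
  · intro x h0 h1
    have a1 := locFloor_le hq hq1 (G.ty c 0).bot (x - c)
    have a2 := le_locCeil hq hq1 (G.top c) ht (x := x - c) (by linarith) (by linarith)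
    linarith

/-- a rectangle -/
theorem vol_rect (a b c d : ℝ) (hab : a ≤ b) (hcd : c ≤ d) :
    volume (btw a b (fun _ => c) (fun _ => d)) = ENNReal.ofReal ((b - a) * (d - c)) := by
  rw [vol_btw hab continuous_const continuous_const (fun _ _ _ => hcd),
    intervalIntegral.integral_const, smul_eq_mul]

theorem colA_nonneg {q : ℝ} (hq : 0 < q) (t : Top) : 0 ≤ colA q t := by
  cases t <;> unfold colA <;> positivity

/-- A5 -/
theorem a5 : A5Stmt := by
  intro q G hG hs
  have hq := hs.pos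
  have hq1 := small_le hs
  have hN := N_pos G
  have h40 : 0 < q ^ 4 := pow_pos hq 4
  have hcover : G.cont q ⊆ ((⋃ c ∈ Finset.range G.M, colset q G c) ∪ {z : ℂ | z.re = G.M}) ∪
      ⋃ i ∈ Finset.range G.n, (btw (-q ^ 4) 0 (fun _ => 2 * (i:ℝ) + 1) (fun _ => 2 * (i:ℝ) + 2) ∪
        btw G.M (G.M + q ^ 4) (fun _ => 2 * (i:ℝ) + 1) (fun _ => 2 * (i:ℝ) + 2)) := by
    rintro z (⟨h0, h1, h2, h3⟩ | ⟨h0, r, hr, hodd, h2, h3⟩)
    · left
      rcases eq_or_lt_of_le h1 with h | h
      · right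
        exact h
      · left
        have hfl : ⌊z.re⌋₊ < G.M := (Nat.floor_lt h0).2 h
        refine mem_biUnion (Finset.mem_coe.2 (Finset.mem_range.2 hfl)) ?_
        exact ⟨Nat.floor_le h0, (Nat.lt_floor_add_one _).le, h2, h3⟩
    · right
      obtain ⟨i, rfl⟩ : ∃ i, r = 2 * i + 1 := ⟨r / 2, by omega⟩
      have hi : i < G.n := by
        unfold Layout.N at hr
        omega
      refine mem_biUnion (Finset.mem_coe.2 (Finset.mem_range.2 hi)) ?_
      push_cast at h2 h3
      rcases h0 with h0 | h0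
      · left
        exact ⟨h0.1, h0.2, h2, by linarith only [h3]⟩
      · right
        exact ⟨h0.1, h0.2, h2, by linarith⟩
  refine (measure_mono hcover).trans ?_
  refine (measure_union_le _ _).trans ?_
  have hbot : ∀ c, ((G.ty c 0).bot.marks.length : ℝ) * q ^ 2 ≤ 1 / 4 := by
    intro c
    have h1 : (((G.ty c 0).bot.marks.length : ℕ) : ℝ) ≤ 4 := by exact_mod_cast marks_len _
    have h2 : q ^ 2 ≤ 1 / 16 := by nlinarith only [hq, hq1]
    have h3 : (0:ℝ) ≤ q ^ 2 := by positivity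
    nlinarith only [h2, h1]
  have hnn : ∀ c ∈ Finset.range G.M, 0 ≤ (G.N : ℝ) +
      (colA q (G.top c) - (G.ty c 0).bot.marks.length * q ^ 2) := by
    intro c _
    have := colA_nonneg hq (G.top c)
    have := hbot c
    linarith
  have b1 : volume ((⋃ c ∈ Finset.range G.M, colset q G c) ∪ {z : ℂ | z.re = G.M}) ≤
      ENNReal.ofReal (∑ c ∈ Finset.range G.M, ((G.N : ℝ) +
        (colA q (G.top c) - (G.ty c 0).bot.marks.length * q ^ 2))) := by
    refine (measure_union_le _ _).trans ?_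
    rw [volume_vert, add_zero, ENNReal.ofReal_sum_of_nonneg hnn]
    refine (measure_biUnion_finset_le _ _).trans ?_
    exact Finset.sum_le_sum fun c hc => vol_col hG hs (Finset.mem_range.1 hc)
  have b2 : volume (⋃ i ∈ Finset.range G.n,
      (btw (-q ^ 4) 0 (fun _ => 2 * (i:ℝ) + 1) (fun _ => 2 * (i:ℝ) + 2) ∪
        btw G.M (G.M + q ^ 4) (fun _ => 2 * (i:ℝ) + 1) (fun _ => 2 * (i:ℝ) + 2))) ≤
      ENNReal.ofReal (2 * G.n * q ^ 4) := by
    refine (measure_biUnion_finset_le _ _).trans ?_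
    have : ∀ i ∈ Finset.range G.n, volume
      (btw (-q ^ 4) 0 (fun _ => 2 * (i:ℝ) + 1) (fun _ => 2 * (i:ℝ) + 2) ∪
        btw G.M (G.M + q ^ 4) (fun _ => 2 * (i:ℝ) + 1) (fun _ => 2 * (i:ℝ) + 2)) ≤
        ENNReal.ofReal (2 * q ^ 4) := by
      intro i _
      refine (measure_union_le _ _).trans ?_
      rw [vol_rect _ _ _ _ (by linarith) (by linarith), vol_rect _ _ _ _ (by linarith) (by linarith),
        ← ENNReal.ofReal_add (by nlinarith) (by nlinarith)]
      apply ENNReal.ofReal_le_ofReal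
      nlinarith
    refine (Finset.sum_le_sum this).trans ?_
    rw [Finset.sum_const, Finset.card_range, nsmul_eq_mul, ← ENNReal.ofReal_natCast,
      ← ENNReal.ofReal_mul (Nat.cast_nonneg _)]
    apply ENNReal.ofReal_le_ofReal
    nlinarith
  refine (add_le_add b1 b2).trans ?_
  rw [← ENNReal.ofReal_add (Finset.sum_nonneg hnn) (by positivity)]
  apply ENNReal.ofReal_le_ofReal
  rw [Finset.sum_add_distrib, Finset.sum_const, Finset.card_range, nsmul_eq_mul]

end Pool.Agent.Helper14_Pack
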