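import Pool.Agent.Helper14_Pack.A4
import Pool.Agent.Helper14_Pack.A5

/-!
# A1: total area accounting
-/

namespace Pool.Agent.Helper14_Pack

open MeasureTheory Set Pool.Agent.Helper2_Pack

/-- indicator of a Boolean -/
def ib (b : Bool) : ℝ := if b then 1 else 0

theorem width_eq (q : ℝ) (t : Tile) : t.xr q - t.xl q = 1 + q * (ib t.wide - ib t.narrow) := by
  unfold Tile.xr Tile.xl ib
  cases t.wide <;> cases t.narrow <;> simp
  ring

/-- the rows -/
theorem row_sum {G : Layout} (hG : G.OK) (q : ℝ) {r : ℕ} (hr : r < G.N) :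
    ∑ c ∈ Finset.range G.M, ((G.ty c r).xr q - (G.ty c r).xl q) = G.M := by
  simp_rw [width_eq]
  rw [Finset.sum_add_distrib, ← Finset.mul_sum, Finset.sum_sub_distrib]
  have h : ∑ c ∈ Finset.range G.M, ib (G.ty c r).wide = ∑ c ∈ Finset.range G.M, ib (G.ty c r).narrow := by
    obtain ⟨M', hM⟩ : ∃ M', G.M = M' + 1 := ⟨G.M - 1, by have := hG.pos; omega⟩
    rw [hM, Finset.sum_range_succ, Finset.sum_range_succ']
    have e1 : ib (G.ty M' r).wide = 0 := by
      have := hG.fits.right r hr
      rw [hM, Nat.add_sub_cancel] at this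
      rw [this]
      rfl
    have e2 : ib (G.ty 0 r).narrow = 0 := by
      rw [hG.fits.left r hr]
      rfl
    rw [e1, e2]
    congr 1
    apply Finset.sum_congr rfl
    intro c hc
    rw [hG.fits.horiz c r (by have := Finset.mem_range.1 hc; omega) hr]
  rw [h]
  simp

/-- the columns -/
theorem col_sum {G : Layout} (hG : G.OK) {c : ℕ} (hc : c < G.M) :
    ∑ r ∈ Finset.range G.N, (((G.ty c r).top.marks.length : ℝ) - (G.ty c r).bot.marks.length) =
      (G.top c).col.marks.length - (G.ty c 0).bot.marks.length := by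
  rw [Finset.sum_sub_distrib]
  obtain ⟨N', hN⟩ : ∃ N', G.N = N' + 1 := ⟨2 * G.n, rfl⟩
  have e1 : (G.ty c N').top = (G.top c).col := by
    have := hG.fits.ceil c hc
    rwa [hN, Nat.add_sub_cancel] at this
  rw [hN, Finset.sum_range_succ, Finset.sum_range_succ', e1]
  have : ∑ x ∈ Finset.range N', ((G.ty c x).top.marks.length : ℝ) =
      ∑ k ∈ Finset.range N', ((G.ty c (k + 1)).bot.marks.length : ℝ) := by
    apply Finset.sum_congr rfl
    intro k hk
    rw [hG.fits.vert c k hc (by have := Finset.mem_range.1 hk; omega)]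
  rw [this]
  ring

theorem sum_subtype_range (M : ℕ) (P : ℕ → Bool) (f : ℕ → ℝ) :
    ∑ c : {c : Fin M // P c = true}, f c.1 = ∑ c ∈ Finset.range M, ib (P c) * f c := by
  rw [Finset.sum_range (fun c => ib (P c) * f c)]
  have h1 : ∑ c : {c : Fin M // P c = true}, f c.1 =
      ∑ c ∈ Finset.univ.filter (fun c : Fin M => P c = true), f c := by
    rw [Finset.sum_subtype (Finset.univ.filter (fun c : Fin M => P c = true))
      (p := fun c : Fin M => P c = true) (by simp) (fun c : Fin M => f c)]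
  rw [h1, Finset.sum_filter]
  apply Finset.sum_congr rfl
  intro c _
  unfold ib
  split_ifs <;> simp

theorem K_eq (G : Layout) : (G.K : ℝ) = G.M * G.N + ∑ c ∈ Finset.range G.M, ib (G.top c).isL := by
  have h1 : (G.K : ℝ) = ∑ i : Cell G, (1 : ℝ) := by
    rw [Finset.sum_const, Finset.card_univ, nsmul_eq_mul, mul_one]
    rfl
  rw [h1, Fintype.sum_sum_type]
  congr 1
  · rw [Finset.sum_const, Finset.card_univ, Fintype.card_prod, Fintype.card_fin, Fintype.card_fin,
      nsmul_eq_mul, mul_one]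
    push_cast
    ring
  · have := sum_subtype_range G.M (fun c => (G.top c).isL) (fun _ => 1)
    simp only [mul_one] at this
    exact this

/-- the extra area above a column -/
noncomputable def ext (q : ℝ) (t : Top) : ℝ := colA q t - q ^ 2 * t.col.marks.length

noncomputable def extL (q : ℝ) : Top → ℝ
  | .portL σ => ext q (.portL σ)
  | _ => 0

noncomputable def extR (q : ℝ) : Top → ℝ
  | .portR σ => ext q (.portR σ)
  | _ => 0

theorem ext_le {q : ℝ} (hq : 0 < q) (t : Top) : ext q t ≤ 2 * q ^ 3 + extL q t + extR q t := by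
  have hk : 0 < q ^ 3 := pow_pos hq 3
  cases t with
  | flat a o =>
    show a.marks.length * q ^ 2 + 2 * q ^ 3 - q ^ 2 * a.marks.length ≤ _
    show _ ≤ 2 * q ^ 3 + 0 + 0
    linarith
  | portL σ =>
    show ext q (.portL σ) ≤ 2 * q ^ 3 + ext q (.portL σ) + 0
    linarith
  | portR σ =>
    show ext q (.portR σ) ≤ 2 * q ^ 3 + 0 + ext q (.portR σ)
    linarith

theorem ext_pair (q : ℝ) (σ : Bool) : ext q (.portL σ) + ext q (.portR σ) =
    1 - (pcol σ).marks.length * q ^ 2 + 12 * q ^ 3 := by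
  unfold ext
  show 1 / 2 + ((pcol σ).marks.filter (fun p : ℕ => p < 16)).length * q ^ 2 + 6 * q ^ 3 -
      q ^ 2 * (pcol σ).marks.length +
    (1 / 2 + ((pcol σ).marks.filter (fun p : ℕ => 16 < p)).length * q ^ 2 + 6 * q ^ 3 -
      q ^ 2 * (pcol σ).marks.length) = _
  cases σ
  · simp [pcol, Col.marks]
    ring
  · simp [pcol, Col.marks]
    ring

theorem lever_pos {q : ℝ} (hq : 0 < q) (hq1 : q ≤ 1 / 2 ^ 20) (σ : Bool) :
    0 ≤ 1 - (pcol σ).marks.length * q ^ 2 - 4 * q ^ 3 := by
  have h1 : ((pcol σ).marks.length : ℝ) ≤ 4 := by exact_mod_cast marks_len _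
  have h2 : q ^ 2 ≤ 1 / 100 := by nlinarith
  have h3 : q ^ 3 ≤ 1 / 100 := by
    have : q ^ 3 = q * q ^ 2 := by ring
    rw [this]
    nlinarith
  have h4 : (0:ℝ) ≤ q ^ 2 := by positivity
  nlinarith

theorem tile_pos {q : ℝ} (hq : 0 < q) (hq1 : q ≤ 1 / 2 ^ 20) (t : Tile) :
    0 ≤ t.xr q - t.xl q + (t.top.marks.length - t.bot.marks.length) * q ^ 2 - 2 * q ^ 3 := by
  have h1 : (t.bot.marks.length : ℝ) ≤ 4 := by exact_mod_cast marks_len _
  have h1' : (0:ℝ) ≤ (t.top.marks.length : ℝ) := Nat.cast_nonneg _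
  have h2 : q ^ 2 ≤ 1 / 100 := by nlinarith
  have h3 : q ^ 3 ≤ 1 / 100 := by
    have : q ^ 3 = q * q ^ 2 := by ring
    rw [this]
    nlinarith
  have h4 : (0:ℝ) ≤ q ^ 2 := by positivity
  have h5 : 1 - q ≤ t.xr q - t.xl q := by
    rw [width_eq]
    unfold ib
    cases t.wide <;> cases t.narrow <;> simp <;> linarith
  nlinarith

/-- the extra area of all columns -/
theorem ext_sum {G : Layout} (hG : G.OK) {q : ℝ} (hq : 0 < q) :
    ∑ c ∈ Finset.range G.M, ext q (G.top c) ≤ 2 * q ^ 3 * G.M +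
      ∑ c ∈ Finset.range G.M, ib (G.top c).isL *
        (1 - (pcol (G.top c).sig).marks.length * q ^ 2 + 12 * q ^ 3) := by
  have h1 : ∑ c ∈ Finset.range G.M, ext q (G.top c) ≤
      ∑ c ∈ Finset.range G.M, (2 * q ^ 3 + extL q (G.top c) + extR q (G.top c)) :=
    Finset.sum_le_sum fun c _ => ext_le hq _
  refine h1.trans ?_
  rw [Finset.sum_add_distrib, Finset.sum_add_distrib, Finset.sum_const, Finset.card_range,
    nsmul_eq_mul]
  have h2 : ∑ c ∈ Finset.range G.M, extL q (G.top c) + ∑ c ∈ Finset.range G.M, extR q (G.top c) =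
      ∑ c ∈ Finset.range G.M, ib (G.top c).isL *
        (1 - (pcol (G.top c).sig).marks.length * q ^ 2 + 12 * q ^ 3) := by
    obtain ⟨M', hM⟩ : ∃ M', G.M = M' + 1 := ⟨G.M - 1, by have := hG.pos; omega⟩
    have hL : ∀ σ, G.top M' ≠ .portL σ := by
      intro σ h
      have := (hG.portL M' σ (by omega) h).1
      omega
    have hR : ∀ σ, G.top 0 ≠ .portR σ := by
      intro σ h
      have := (hG.portR 0 σ (by omega) h).1
      omega
    rw [hM, Finset.sum_range_succ, Finset.sum_range_succ' (fun c => extR q (G.top c)),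
      Finset.sum_range_succ]
    have e1 : extL q (G.top M') = 0 := by
      cases h : G.top M' with
      | flat a o => rfl
      | portL σ => exact absurd h (hL σ)
      | portR σ => rfl
    have e2 : extR q (G.top 0) = 0 := by
      cases h : G.top 0 with
      | flat a o => rfl
      | portL σ => rfl
      | portR σ => exact absurd h (hR σ)
    have e3 : ib (G.top M').isL = 0 := by
      cases h : G.top M' with
      | flat a o => rfl
      | portL σ => exact absurd h (hL σ)
      | portR σ => rfl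
    rw [e1, e2, e3, add_zero, add_zero, zero_mul, add_zero, ← Finset.sum_add_distrib]
    apply Finset.sum_congr rfl
    intro c hc
    have hc' : c + 1 < G.M := by have := Finset.mem_range.1 hc; omega
    cases h : G.top c with
    | portL σ =>
      have h3 := (hG.portL c σ (by omega) h).2
      rw [h3]
      show ext q (.portL σ) + ext q (.portR σ) = 1 * _
      rw [ext_pair, one_mul]
      rfl
    | flat a o =>
      show 0 + _ = 0 * _
      rw [zero_mul, zero_add]
      cases h4 : G.top (c + 1) with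
      | flat a o => rfl
      | portL σ => rfl
      | portR σ =>
        have h5 := (hG.portR (c + 1) σ hc' h4).2
        rw [Nat.add_sub_cancel, h] at h5
        cases h5
    | portR σ' =>
      show 0 + _ = 0 * _
      rw [zero_mul, zero_add]
      cases h4 : G.top (c + 1) with
      | flat a o => rfl
      | portL σ => rfl
      | portR σ =>
        have h5 := (hG.portR (c + 1) σ hc' h4).2
        rw [Nat.add_sub_cancel, h] at h5
        cases h5
  linarith

/-- A1 -/
theorem a1 : A1Stmt := by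
  intro q G hG hs
  have hq := hs.pos
  have hq1 := small_le hs
  have hk : 0 < q ^ 3 := pow_pos hq 3
  set A : ℕ → ℕ → ℝ := fun c r => (G.ty c r).xr q - (G.ty c r).xl q +
    ((G.ty c r).top.marks.length - (G.ty c r).bot.marks.length) * q ^ 2 - 2 * q ^ 3 with hA
  set B : ℕ → ℝ := fun c => 1 - (pcol (G.top c).sig).marks.length * q ^ 2 - 4 * q ^ 3 with hB
  -- lower bound for the shapes
  have hlow : ENNReal.ofReal (∑ c ∈ Finset.range G.M, ∑ r ∈ Finset.range G.N, A c r +
      ∑ c ∈ Finset.range G.M, ib (G.top c).isL * B c) ≤ ∑ i, volume ((G.shp i).reg q) := by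
    rw [Fintype.sum_sum_type, Fintype.sum_prod_type]
    have hA0 : ∀ c r, 0 ≤ A c r := fun c r => tile_pos hq hq1 _
    have hB0 : ∀ c, 0 ≤ B c := fun c => lever_pos hq hq1 _
    have e1 : ∑ c ∈ Finset.range G.M, ∑ r ∈ Finset.range G.N, A c r =
        ∑ c : Fin G.M, ∑ r : Fin G.N, A c r := by
      rw [Finset.sum_range]
      apply Finset.sum_congr rfl
      intro c _
      rw [Finset.sum_range]
    have e2 := sum_subtype_range G.M (fun c => (G.top c).isL) B
    rw [e1, ← e2, ENNReal.ofReal_add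
      (Finset.sum_nonneg fun c _ => Finset.sum_nonneg fun r _ => hA0 _ _)
      (Finset.sum_nonneg fun c _ => hB0 _)]
    refine add_le_add ?_ ?_
    · rw [ENNReal.ofReal_sum_of_nonneg (fun c _ => Finset.sum_nonneg fun r _ => hA0 _ _)]
      refine Finset.sum_le_sum fun c _ => ?_
      rw [ENNReal.ofReal_sum_of_nonneg (fun r _ => hA0 _ _)]
      refine Finset.sum_le_sum fun r _ => ?_
      exact a3 q (G.ty c r) hq hq1
    · rw [ENNReal.ofReal_sum_of_nonneg (fun c _ => hB0 _)]
      refine Finset.sum_le_sum fun c _ => ?_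
      exact a4 q (G.top c.1).sig hq hq1
  refine (a5 q G hG hs).trans ?_
  refine le_trans ?_ (add_le_add_left hlow _)
  have hK := K_eq G
  have hNN : (G.N : ℝ) = 2 * G.n + 1 := by
    unfold Layout.N
    push_cast
    ring
  have hn0 : (0:ℝ) ≤ G.n := Nat.cast_nonneg _
  have hM1 : (1:ℝ) ≤ G.M := by exact_mod_cast hG.pos
  -- the sum over the tiles
  have hT : ∑ c ∈ Finset.range G.M, ∑ r ∈ Finset.range G.N, A c r = G.M * G.N +
      q ^ 2 * ∑ c ∈ Finset.range G.M,
        (((G.top c).col.marks.length : ℝ) - (G.ty c 0).bot.marks.length) -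
      2 * q ^ 3 * (G.M * G.N) := by
    have e1 : ∑ c ∈ Finset.range G.M, ∑ r ∈ Finset.range G.N, A c r =
        ∑ c ∈ Finset.range G.M, ∑ r ∈ Finset.range G.N, ((G.ty c r).xr q - (G.ty c r).xl q) +
        ∑ c ∈ Finset.range G.M, ∑ r ∈ Finset.range G.N,
          (((G.ty c r).top.marks.length : ℝ) - (G.ty c r).bot.marks.length) * q ^ 2 -
        ∑ c ∈ Finset.range G.M, ∑ r ∈ Finset.range G.N, 2 * q ^ 3 := by
      rw [← Finset.sum_add_distrib, ← Finset.sum_sub_distrib]
      apply Finset.sum_congr rfl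
      intro c _
      rw [← Finset.sum_add_distrib, ← Finset.sum_sub_distrib]
    rw [e1, Finset.sum_comm]
    have e2 : ∑ r ∈ Finset.range G.N, ∑ c ∈ Finset.range G.M,
        ((G.ty c r).xr q - (G.ty c r).xl q) = G.M * G.N := by
      rw [Finset.sum_congr rfl (fun r hr => row_sum hG q (Finset.mem_range.1 hr)),
        Finset.sum_const, Finset.card_range, nsmul_eq_mul]
      ring
    have e3 : ∑ c ∈ Finset.range G.M, ∑ r ∈ Finset.range G.N,
        (((G.ty c r).top.marks.length : ℝ) - (G.ty c r).bot.marks.length) * q ^ 2 =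
        q ^ 2 * ∑ c ∈ Finset.range G.M,
          (((G.top c).col.marks.length : ℝ) - (G.ty c 0).bot.marks.length) := by
      rw [Finset.mul_sum]
      apply Finset.sum_congr rfl
      intro c hc
      rw [← Finset.sum_mul, col_sum hG (Finset.mem_range.1 hc)]
      ring
    rw [e2, e3]
    simp only [Finset.sum_const, Finset.card_range, nsmul_eq_mul]
    ring
  have hX : ∑ c ∈ Finset.range G.M, (colA q (G.top c) - (G.ty c 0).bot.marks.length * q ^ 2) =
      ∑ c ∈ Finset.range G.M, ext q (G.top c) + q ^ 2 * ∑ c ∈ Finset.range G.M,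
        (((G.top c).col.marks.length : ℝ) - (G.ty c 0).bot.marks.length) := by
    rw [Finset.mul_sum, ← Finset.sum_add_distrib]
    apply Finset.sum_congr rfl
    intro c _
    unfold ext
    ring
  have hE := ext_sum hG hq
  have hI : ∑ c ∈ Finset.range G.M, ib (G.top c).isL *
        (1 - (pcol (G.top c).sig).marks.length * q ^ 2 + 12 * q ^ 3) =
      ∑ c ∈ Finset.range G.M, ib (G.top c).isL * B c +
        16 * q ^ 3 * ∑ c ∈ Finset.range G.M, ib (G.top c).isL := by
    rw [Finset.mul_sum, ← Finset.sum_add_distrib]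
    apply Finset.sum_congr rfl
    intro c _
    rw [hB]
    ring
  have hib : 0 ≤ ∑ c ∈ Finset.range G.M, ib (G.top c).isL := by
    apply Finset.sum_nonneg
    intro c _
    unfold ib
    split_ifs <;> norm_num
  have hA0 : ∀ c r, 0 ≤ A c r := fun c r => tile_pos hq hq1 _
  have hB0 : ∀ c, 0 ≤ B c := fun c => lever_pos hq hq1 _
  have hnn : 0 ≤ ∑ c ∈ Finset.range G.M, ∑ r ∈ Finset.range G.N, A c r +
      ∑ c ∈ Finset.range G.M, ib (G.top c).isL * B c := by
    refine add_nonneg (Finset.sum_nonneg fun c _ => Finset.sum_nonneg fun r _ => hA0 _ _)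
      (Finset.sum_nonneg fun c _ => mul_nonneg ?_ (hB0 _))
    unfold ib
    split_ifs <;> norm_num
  rw [← ENNReal.ofReal_add hnn (by positivity)]
  apply ENNReal.ofReal_le_ofReal
  rw [hT, hX, hK]
  set Lv := ∑ c ∈ Finset.range G.M, ib (G.top c).isL with hLv
  set Z := ∑ c ∈ Finset.range G.M,
    (((G.top c).col.marks.length : ℝ) - (G.ty c 0).bot.marks.length) with hZ
  rw [hI] at hE
  have h4 : 2 * G.n * q ^ 4 ≤ q ^ 3 * (G.M * G.N) := by
    have e : q ^ 4 = q ^ 3 * q := by ring
    rw [e, hNN]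
    have h5 : 2 * (G.n : ℝ) * q ≤ G.M * (2 * G.n + 1) := by nlinarith
    have := mul_le_mul_of_nonneg_left h5 hk.le
    linarith
  have h6 : (G.M : ℝ) ≤ G.M * G.N := by
    have := N_pos G
    nlinarith
  have h7 : 2 * q ^ 3 * G.M ≤ 2 * q ^ 3 * (G.M * G.N) :=
    mul_le_mul_of_nonneg_left h6 (by positivity)
  have h8 : 0 ≤ q ^ 3 * Lv := mul_nonneg hk.le hib
  have h9 : 0 ≤ q ^ 3 * (G.M * G.N : ℝ) := by positivity
  nlinarith

end Pool.Agent.Helper14_Pack
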