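import Pool.Agent.Helper14_Pack.A1
import Pool.Agent.Helper2_Pack.S2
import Pool.Agent.Helper2_Pack.S3

/-!
# A2: the uncovered area of a packing
-/

namespace Pool.Agent.Helper14_Pack

open MeasureTheory Set Pool.Agent.Helper2_Pack

theorem occ_volume (hS3 : S3Stmt) {q : ℝ} {G : Layout} (p : Packing q G) (hs : Small q G) :
    MeasurableSet p.occ ∧ volume p.occ = ∑ i, volume ((G.shp i).reg q) ∧ volume p.occ ≠ ⊤ := by
  have hq := hs.pos
  have hq1 := small_le hs
  have hgood : ∀ s : Shp, (s.sh q).Good := fun s => (hS3 q s hq (by linarith)).1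
  have hcomp : ∀ i, IsCompact (img q (p.g i) (G.shp i)) := by
    intro i
    exact (hgood (G.shp i)).compact.image (p.g i).homeo.continuous
  have hmeas : ∀ i, MeasurableSet (img q (p.g i) (G.shp i)) := fun i => (hcomp i).measurableSet
  have hfr : ∀ i, volume (frontier (img q (p.g i) (G.shp i))) = 0 := by
    intro i
    have h2 := s2 (p.g i) ((G.shp i).reg q)
    have h3 := s2 (p.g i) (frontier ((G.shp i).reg q))
    show volume (frontier ((p.g i).app '' (G.shp i).reg q)) = 0
    rw [h2.2.2.1, h3.2.2.2.1]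
    exact (hgood (G.shp i)).frontier_null
  have hdis : Pairwise (Function.onFun (AEDisjoint volume) fun i => img q (p.g i) (G.shp i)) := by
    intro i j hij
    show volume (img q (p.g i) (G.shp i) ∩ img q (p.g j) (G.shp j)) = 0
    refine measure_mono_null (t := frontier (img q (p.g i) (G.shp i)) ∪
      frontier (img q (p.g j) (G.shp j))) ?_ (measure_union_null (hfr i) (hfr j))
    rintro z ⟨hi, hj⟩
    by_contra hc
    rw [mem_union, not_or] at hc
    have h1 : z ∈ interior (img q (p.g i) (G.shp i)) := by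
      by_contra h
      exact hc.1 ((hcomp i).isClosed.frontier_eq ▸ ⟨hi, h⟩)
    have h2 : z ∈ interior (img q (p.g j) (G.shp j)) := by
      by_contra h
      exact hc.2 ((hcomp j).isClosed.frontier_eq ▸ ⟨hj, h⟩)
    exact Set.disjoint_left.1 (p.disj i j hij) h1 h2
  have hvol : volume p.occ = ∑ i, volume ((G.shp i).reg q) := by
    unfold Packing.occ
    rw [measure_iUnion₀ hdis (fun i => (hmeas i).nullMeasurableSet), tsum_fintype]
    apply Finset.sum_congr rfl
    intro i _
    exact (s2 (p.g i) ((G.shp i).reg q)).2.2.2.1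
  refine ⟨MeasurableSet.iUnion hmeas, hvol, ?_⟩
  rw [hvol]
  refine ENNReal.sum_ne_top.2 fun i _ => ?_
  exact (hgood (G.shp i)).compact.measure_ne_top

/-- A2 from S3 -/
theorem a2' (hS3 : S3Stmt) : A2Stmt := by
  intro q G p hG hs
  obtain ⟨hm, hv, hf⟩ := occ_volume hS3 p hs
  have hsub : p.occ ⊆ G.cont q := iUnion_subset p.sub
  rw [measure_diff hsub hm.nullMeasurableSet hf]
  rw [tsub_le_iff_left, hv]
  exact a1 q G hG hs

/-- A2 -/
theorem a2 : A2Stmt := a2' s3

end Pool.Agent.Helper14_Pack
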