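import Pool.Agent.Helper14_Pack.Area

/-!
# A3, A4: the areas of the shapes
-/

namespace Pool.Agent.Helper14_Pack

open MeasureTheory Set Pool.Agent.Helper2_Pack

theorem cham_cont (q xl : ℝ) : Continuous (cham q xl) := by
  unfold cham
  fun_prop

theorem cham_nonneg (q xl x : ℝ) : 0 ≤ cham q xl x := le_max_left _ _

theorem int_cham_le {q xl xr : ℝ} (hq : 0 < q) (h0 : xl ≤ 1) (h1 : 1 ≤ xr) :
    ∫ x in xl..xr, cham q xl x ≤ 128 * (q ^ 3) ^ 2 + 8 * q ^ 3 * (xr - 1) := by
  have hk : 0 < q ^ 3 := pow_pos hq 3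
  have hi : ∀ c d, IntervalIntegrable (cham q xl) volume c d :=
    fun c d => (cham_cont q xl).intervalIntegrable c d
  rw [← intervalIntegral.integral_add_adjacent_intervals (hi xl 1) (hi 1 xr)]
  have e1 : ∫ x in xl..1, cham q xl x ≤ 128 * (q ^ 3) ^ 2 := by
    have h2 : ∫ x in xl..1, cham q xl x ≤ ∫ x in xl..1, (tn (8 * q ^ 3) xl x + tn (8 * q ^ 3) 1 x) := by
      refine intervalIntegral.integral_mono_on h0 (hi _ _)
        (((tn_cont _ _).add (tn_cont _ _)).intervalIntegrable _ _) ?_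
      intro x hx
      have a1 : |x - xl| = x - xl := abs_of_nonneg (by linarith [hx.1])
      have a2 : |x - 1| = 1 - x := by rw [abs_of_nonpos (by linarith [hx.2])]; ring
      unfold tn cham
      rw [a1, a2]
      have b1 : xl + 8 * q ^ 3 - x ≤ max 0 (8 * q ^ 3 - (x - xl)) := by
        refine le_trans (le_of_eq ?_) (le_max_right _ _)
        ring
      have b2 : min (8 * q ^ 3) (x - 1 + 8 * q ^ 3) ≤ max 0 (8 * q ^ 3 - (1 - x)) := by
        refine le_trans (min_le_right _ _) (le_trans (le_of_eq ?_) (le_max_right _ _))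
        ring
      have b3 : 0 ≤ max 0 (8 * q ^ 3 - (x - xl)) := le_max_left _ _
      have b4 : 0 ≤ max 0 (8 * q ^ 3 - (1 - x)) := le_max_left _ _
      refine max_le (by linarith) (max_le (by linarith) (by linarith))
    refine h2.trans ?_
    rw [intervalIntegral.integral_add ((tn_cont _ _).intervalIntegrable _ _)
      ((tn_cont _ _).intervalIntegrable _ _)]
    have h3 := int_tn_le (h := 8 * q ^ 3) (p := xl) (a := xl) (b := 1) (by positivity) h0
    have h4 := int_tn_le (h := 8 * q ^ 3) (p := 1) (a := xl) (b := 1) (by positivity) h0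
    linarith only [h3, h4]
  have e2 : ∫ x in (1:ℝ)..xr, cham q xl x ≤ 8 * q ^ 3 * (xr - 1) := by
    have h2 : ∫ x in (1:ℝ)..xr, cham q xl x ≤ ∫ x in (1:ℝ)..xr, (8 * q ^ 3 : ℝ) := by
      refine intervalIntegral.integral_mono_on h1 (hi _ _) (by simp) ?_
      intro x hx
      unfold cham
      refine max_le (by positivity) (max_le (by linarith [hx.1]) (min_le_left _ _))
    refine h2.trans ?_
    rw [intervalIntegral.integral_const]
    simp
    rw [mul_comm]
  linarith

theorem sum_map_le {L : List (ℝ × ℝ)} {f : ℝ × ℝ → ℝ} {c : ℝ} (h : ∀ d ∈ L, f d ≤ c) :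
    (L.map f).sum ≤ L.length * c := by
  induction L with
  | nil => simp
  | cons d L ih =>
    rw [List.map_cons, List.sum_cons, List.length_cons]
    have h1 := h d (by simp)
    have h2 := ih fun e he => h e (by simp [he])
    push_cast
    linarith

theorem sum_map_eq {L : List (ℝ × ℝ)} {f : ℝ × ℝ → ℝ} {c : ℝ} (h : ∀ d ∈ L, f d = c) :
    (L.map f).sum = L.length * c := by
  induction L with
  | nil => simp
  | cons d L ih =>
    rw [List.map_cons, List.sum_cons, List.length_cons]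
    have h1 := h d (by simp)
    have h2 := ih fun e he => h e (by simp [he])
    rw [h1, h2]
    push_cast
    ring

theorem marks_mem {a : Col} {p : ℕ} (h : p ∈ a.marks) : 10 ≤ p ∧ p ≤ 29 := by
  cases a <;> simp [Col.marks] at h <;> omega

theorem marks_len (a : Col) : a.marks.length ≤ 4 := by
  cases a <;> simp [Col.marks]

/-- different marks differ by at least three -/
theorem marks_sep (a : Col) : a.marks.Pairwise fun p r => 3 ≤ |((p : ℕ) : ℝ) - (r : ℕ)| := by
  cases a
  · simp [Col.marks]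
  · simp [Col.marks]; norm_num
  · simp [Col.marks]; norm_num
  · simp [Col.marks]; norm_num

theorem sep_marks {q h g : ℝ} (a : Col) (hh : h - g ≤ 1 / 64) :
    Sep g (a.marks.map fun p : ℕ => ((p : ℝ) / 32, h)) := by
  unfold Sep
  rw [List.pairwise_map]
  refine (marks_sep a).imp ?_
  intro p r hpr
  show (h - g) + (h - g) ≤ |(p : ℝ) / 32 - (r : ℝ) / 32|
  have : (p : ℝ) / 32 - (r : ℝ) / 32 = ((p : ℝ) - r) / 32 := by ring
  rw [this, abs_div, abs_of_pos (by norm_num : (0:ℝ) < 32)]
  linarith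

/-- the area below a row of bumps -/
theorem int_marks {h g a b : ℝ} (c : Col) (h0 : 0 ≤ h - g) (h1 : h - g ≤ 1 / 64)
    (ha : a ≤ 1 / 4) (hb : 31 / 32 ≤ b) :
    ∫ x in a..b, bs g (c.marks.map fun p : ℕ => ((p : ℝ) / 32, h)) x =
      c.marks.length * (h - g) ^ 2 := by
  rw [int_bs_eq]
  · rw [sum_map_eq (c := (h - g) ^ 2), List.length_map]
    intro d hd
    obtain ⟨p, hp, rfl⟩ := List.mem_map.1 hd
    rfl
  · intro d hd
    obtain ⟨p, hp, rfl⟩ := List.mem_map.1 hd
    have h2 := marks_mem hp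
    have h3 : (10 : ℝ) ≤ p := by exact_mod_cast h2.1
    have h4 : (p : ℝ) ≤ 29 := by exact_mod_cast h2.2
    exact ⟨by linarith only [h0], by show a ≤ (p : ℝ) / 32 - (h - g); linarith,
      by show (p : ℝ) / 32 + (h - g) ≤ b; linarith⟩

/-- A3 -/
theorem a3 : A3Stmt := by
  intro q t hq hq1
  have hk : 0 < q ^ 3 := pow_pos hq 3
  have hkq : q ^ 3 ≤ q * (1 / 2 ^ 20) ^ 2 := by
    have : q ^ 3 = q * (q * q) := by ring
    rw [this]
    refine mul_le_mul_of_nonneg_left ?_ hq.le
    nlinarith only [hq1, hq]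
  have hxl : 0 ≤ t.xl q ∧ t.xl q ≤ q := by
    unfold Tile.xl
    split_ifs
    · exact ⟨hq.le, le_rfl⟩
    · exact ⟨le_rfl, hq.le⟩
  have hxr : 1 ≤ t.xr q ∧ t.xr q ≤ 1 + q := by
    unfold Tile.xr
    split_ifs
    · exact ⟨by linarith only [hk, hkq], le_rfl⟩
    · exact ⟨le_rfl, by linarith⟩
  have hbase : 0 ≤ t.base q ∧ t.base q ≤ q ^ 3 := by
    unfold Tile.base
    split_ifs
    · exact ⟨le_rfl, hk.le⟩
    · exact ⟨hk.le, le_rfl⟩
  have hdent : ∀ d ∈ t.dents q, t.base q ≤ d.2 ∧ d.2 - t.base q ≤ q + q ^ 3 := by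
    intro d hd
    unfold Tile.dents at hd
    obtain ⟨p, hp, rfl⟩ := List.mem_map.1 hd
    unfold Tile.base
    split_ifs <;> constructor <;> simp <;> linarith only [hk, hkq]
  have hdl : (t.dents q).length = t.bot.marks.length := by
    unfold Tile.dents
    rw [List.length_map]
  have hlen := marks_len t.bot
  have hlen' : ((t.bot.marks.length : ℕ) : ℝ) ≤ 4 := by exact_mod_cast hlen
  have hlen0 : (0 : ℝ) ≤ ((t.bot.marks.length : ℕ) : ℝ) := Nat.cast_nonneg _
  set Lt : List (ℝ × ℝ) := t.top.marks.map fun p : ℕ => ((p : ℝ) / 32, 1 + q) with hLt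
  have hlo : Continuous (t.sh q).lo := (cham_cont _ _).max (tents_cont _ _)
  have hhi : Continuous (t.sh q).hi := (tents_cont _ _).sub (cham_cont _ _)
  have hab : t.xl q ≤ t.xr q := by linarith only [hq1, hxl.2, hxr.1]
  have h1 : volume ((Shp.tile t).reg q) = volume (btw (t.xl q) (t.xr q) (t.sh q).lo (t.sh q).hi) := rfl
  rw [h1]
  refine le_trans (ENNReal.ofReal_le_ofReal ?_) (vol_btw_ge hab hlo hhi)
  have h2 : ∫ x in (t.xl q)..(t.xr q), ((1 - t.base q) + bs 1 Lt x - 2 * cham q (t.xl q) x -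
      bs (t.base q) (t.dents q) x) ≤ ∫ x in (t.xl q)..(t.xr q), ((t.sh q).hi x - (t.sh q).lo x) := by
    refine intervalIntegral.integral_mono_on hab ?_ ((hhi.sub hlo).intervalIntegrable _ _) ?_
    · exact (((continuous_const.add (bs_cont _ _)).sub
        (continuous_const.mul (cham_cont _ _))).sub (bs_cont _ _)).intervalIntegrable _ _
    · intro x hx
      have e1 : (t.sh q).hi x = tents 1 Lt x - cham q (t.xl q) x := rfl
      have e2 : (t.sh q).lo x = max (cham q (t.xl q) x) (tents (t.base q) (t.dents q) x) := rfl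
      have e3 := le_tents (g := 1) (L := Lt)
        (sep_marks (q := q) t.top (by linarith only [hq1])) x
      have e4 := tents_le (t.base q) (t.dents q) x
      have e5 := le_tents_base (t.base q) (t.dents q) x
      have e6 : max (cham q (t.xl q) x) (tents (t.base q) (t.dents q) x) ≤
          cham q (t.xl q) x + tents (t.base q) (t.dents q) x :=
        max_le (by linarith [hbase.1]) (by linarith [cham_nonneg q (t.xl q) x])
      rw [e1, e2]
      linarith
  refine le_trans ?_ h2
  have hi1 : IntervalIntegrable (fun x => (1 - t.base q) + bs 1 Lt x) volume (t.xl q) (t.xr q) :=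
    (continuous_const.add (bs_cont _ _)).intervalIntegrable _ _
  have hi2 : IntervalIntegrable (fun x => 2 * cham q (t.xl q) x) volume (t.xl q) (t.xr q) :=
    (continuous_const.mul (cham_cont _ _)).intervalIntegrable _ _
  have hi3 : IntervalIntegrable (fun x => bs (t.base q) (t.dents q) x) volume (t.xl q) (t.xr q) :=
    (bs_cont _ _).intervalIntegrable _ _
  have hi4 : IntervalIntegrable (fun x => bs 1 Lt x) volume (t.xl q) (t.xr q) :=
    (bs_cont _ _).intervalIntegrable _ _
  rw [intervalIntegral.integral_sub (hi1.sub hi2) hi3, intervalIntegral.integral_sub hi1 hi2,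
    intervalIntegral.integral_add (by simp) hi4, intervalIntegral.integral_const,
    intervalIntegral.integral_const_mul]
  have k1 : ∫ x in (t.xl q)..(t.xr q), bs 1 Lt x = t.top.marks.length * q ^ 2 := by
    rw [hLt, int_marks t.top (by linarith) (by linarith) (by linarith only [hq1, hxl.2])
      (by linarith only [hxr.1])]
    ring
  have k2 : ∫ x in (t.xl q)..(t.xr q), bs (t.base q) (t.dents q) x ≤
      t.bot.marks.length * (q + q ^ 3) ^ 2 := by
    refine (int_bs_le (fun d hd => (hdent d hd).1) hab).trans ?_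
    rw [← hdl]
    refine sum_map_le fun d hd => ?_
    have := hdent d hd
    exact pow_le_pow_left₀ (by linarith [this.1]) this.2 2
  have k3 := int_cham_le (q := q) (xl := t.xl q) (xr := t.xr q) hq (by linarith [hxl.2]) hxr.1
  rw [k1]
  have k4 : (t.xr q - t.xl q) • (1 - t.base q) = (t.xr q - t.xl q) * (1 - t.base q) := rfl
  rw [k4]
  have k5 : t.base q * (t.xr q - t.xl q) ≤ q ^ 3 * (1 + q) :=
    mul_le_mul hbase.2 (by linarith only [hxl.1, hxr.2]) (by linarith only [hq1, hxl, hxr]) hk.le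
  have k6 : 8 * q ^ 3 * (t.xr q - 1) ≤ 8 * q ^ 3 * q :=
    mul_le_mul_of_nonneg_left (by linarith [hxr.2]) (by positivity)
  have k7 : t.bot.marks.length * (q + q ^ 3) ^ 2 ≤
      t.bot.marks.length * q ^ 2 + 4 * (2 * q * q ^ 3 + (q ^ 3) ^ 2) := by
    have : (q + q ^ 3) ^ 2 = q ^ 2 + (2 * q * q ^ 3 + (q ^ 3) ^ 2) := by ring
    rw [this, mul_add]
    have h0 : (0:ℝ) ≤ 2 * q * q ^ 3 + (q ^ 3) ^ 2 := by positivity
    nlinarith only [hlen', h0]
  have k8 : q ^ 3 * (1 + q) + 4 * (2 * q * q ^ 3 + (q ^ 3) ^ 2) +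
      2 * (128 * (q ^ 3) ^ 2 + 8 * q ^ 3 * q) ≤ 2 * q ^ 3 := by
    have : q ^ 3 * (1 + q) + 4 * (2 * q * q ^ 3 + (q ^ 3) ^ 2) +
      2 * (128 * (q ^ 3) ^ 2 + 8 * q ^ 3 * q) = q ^ 3 * (1 + 25 * q + 260 * q ^ 3) := by ring
    rw [this]
    have h3 : 1 + 25 * q + 260 * q ^ 3 ≤ 2 := by
      have : q ^ 3 ≤ q := by linarith only [hk, hkq]
      linarith
    nlinarith only [hk, hkq, hq1]
  linarith only [k2, k3, k5, k6, k7, k8]

end Pool.Agent.Helper14_Pack
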