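import Pool.Agent.Helper14_Pack.A3

/-!
# A4: the area of a lever
-/

namespace Pool.Agent.Helper14_Pack

open MeasureTheory Set Pool.Agent.Helper2_Pack

theorem port_cont (q : ℝ) (σ : Bool) (p : ℝ) : Continuous (port q σ p) := by
  unfold port roof
  fun_prop

theorem sg_abs (σ : Bool) : ((sg σ : ℤ) : ℝ) = 1 ∨ ((sg σ : ℤ) : ℝ) = -1 := by
  cases σ
  · right; simp [sg]
  · left; simp [sg]

theorem port_le {q : ℝ} (hq : 0 < q) (σ : Bool) {p : ℝ} (hp : |p - 20 / 32| = 10 / 32) (x : ℝ) :
    port q σ p x ≤ tn (q + 3 * q ^ 3 + 3 * q ^ 3 * q) p x := by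
  have hk : 0 < q ^ 3 := pow_pos hq 3
  have hr : ∀ y, |y| ≤ 3 * q ^ 3 → roof q σ (p + y) ≤ q + 3 * q ^ 3 * q := by
    intro y hy
    unfold roof piv
    have h1 : |p + y - 20 / 32| ≤ 10 / 32 + 3 * q ^ 3 := by
      have : p + y - 20 / 32 = (p - 20 / 32) + y := by ring
      rw [this]
      refine (abs_add_le _ _).trans ?_
      rw [hp]
      linarith
    have h2 : 10 / 32 - 3 * q ^ 3 ≤ |p + y - 20 / 32| := by
      have : p - 20 / 32 = (p + y - 20 / 32) + (-y) := by ring
      have h3 : |p - 20 / 32| ≤ |p + y - 20 / 32| + |-y| := by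
        rw [this]
        exact abs_add_le _ _
      rw [hp, abs_neg] at h3
      linarith only [hy, h3]
    rcases sg_abs σ with h | h <;> rw [h]
    · nlinarith only [hq, h1]
    · nlinarith only [hq, h2]
  have h1 := hr (-(3 * q ^ 3)) (by rw [abs_neg, abs_of_pos (by positivity)])
  have h2 := hr (3 * q ^ 3) (by rw [abs_of_pos (by positivity)])
  unfold port tn
  refine (min_le_right _ _).trans ?_
  refine le_trans ?_ (le_max_right _ _)
  rcases le_total x p with hx | hx
  · refine (min_le_left _ _).trans ?_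
    rw [abs_of_nonpos (by linarith)]
    have : roof q σ (p - 3 * q ^ 3) = roof q σ (p + -(3 * q ^ 3)) := by rw [sub_eq_add_neg]
    rw [this]
    linarith
  · refine (min_le_right _ _).trans ?_
    rw [abs_of_nonneg (by linarith)]
    linarith

/-- the dents of a lever besides the ports -/
noncomputable def ldents (q : ℝ) (σ : Bool) : List (ℝ × ℝ) :=
  if σ then [] else [(13 / 32, q + 2 * q ^ 3), (26 / 32, q + 2 * q ^ 3)]

/-- A4 -/
theorem a4 : A4Stmt := by
  intro q σ hq hq1
  have hk : 0 < q ^ 3 := pow_pos hq 3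
  have hkq : q ^ 3 ≤ q * (1 / 2 ^ 20) ^ 2 := by
    have : q ^ 3 = q * (q * q) := by ring
    rw [this]
    refine mul_le_mul_of_nonneg_left ?_ hq.le
    nlinarith
  have hlen : ((pcol σ).marks.length : ℝ) = (ldents q σ).length + 2 := by
    cases σ
    · simp [pcol, Col.marks, ldents]; norm_num
    · simp [pcol, Col.marks, ldents]
  have hL2 : ((ldents q σ).length : ℝ) ≤ 2 := by
    cases σ <;> simp [ldents]
  have hL0 : (0 : ℝ) ≤ ((ldents q σ).length : ℝ) := Nat.cast_nonneg _
  have hLd : ∀ d ∈ ldents q σ, q ^ 3 ≤ d.2 ∧ d.2 - q ^ 3 ≤ q + q ^ 3 := by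
    intro d hd
    cases σ
    · simp [ldents] at hd
      rcases hd with rfl | rfl <;> constructor <;> simp <;> linarith
    · simp [ldents] at hd
  have hpiv : 0 ≤ piv q σ ∧ piv q σ ≤ 1 := by
    unfold piv
    rcases sg_abs σ with h | h <;> rw [h] <;> constructor <;> linarith only [hk, hkq, hq1]
  have hlo : Continuous (leverSh q σ).lo :=
    ((cham_cont _ _).max (tents_cont _ _)).max ((port_cont _ _ _).max (port_cont _ _ _))
  have hhi : Continuous (leverSh q σ).hi := by
    refine (continuous_const.sub (cham_cont _ _)).min ?_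
    fun_prop
  have h1 : volume ((Shp.lever σ).reg q) = volume (btw 0 1 (leverSh q σ).lo (leverSh q σ).hi) := rfl
  rw [h1]
  refine le_trans (ENNReal.ofReal_le_ofReal ?_) (vol_btw_ge zero_le_one hlo hhi)
  set H := q + 3 * q ^ 3 + 3 * q ^ 3 * q with hH
  have hH0 : 0 ≤ H := by positivity
  have h2 : ∫ x in (0:ℝ)..1, ((((1 - q ^ 3) - 2 * cham q 0 x) -
      (1 - piv q σ) / (2 * q ^ 3) * tn (2 * q ^ 3) (20 / 32) x) - bs (q ^ 3) (ldents q σ) x -
      (tn H (10 / 32) x + tn H (30 / 32) x))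
      ≤ ∫ x in (0:ℝ)..1, ((leverSh q σ).hi x - (leverSh q σ).lo x) := by
    refine intervalIntegral.integral_mono_on zero_le_one ?_
      ((hhi.sub hlo).intervalIntegrable _ _) ?_
    · have c1 := cham_cont q 0
      have c2 := tn_cont (2 * q ^ 3) (20 / 32)
      have c3 := bs_cont (q ^ 3) (ldents q σ)
      have c4 := tn_cont H (10 / 32)
      have c5 := tn_cont H (30 / 32)
      exact Continuous.intervalIntegrable (by fun_prop) _ _
    · intro x hx
      have e1 : (leverSh q σ).hi x =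
        min (1 - cham q 0 x) (piv q σ + (1 - piv q σ) * |x - 20 / 32| / (2 * q ^ 3)) := rfl
      have e2 : (leverSh q σ).lo x = max (max (cham q 0 x) (tents (q ^ 3) (ldents q σ) x))
        (max (port q σ (10 / 32) x) (port q σ (30 / 32) x)) := rfl
      have p1 := port_le hq σ (p := 10 / 32) (by rw [abs_of_nonpos (by norm_num)]; norm_num) x
      have p2 := port_le hq σ (p := 30 / 32) (by rw [abs_of_nonneg (by norm_num)]; norm_num) x
      have p3 := tents_le (q ^ 3) (ldents q σ) x
      have p4 := le_tents_base (q ^ 3) (ldents q σ) x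
      have p5 := cham_nonneg q 0 x
      have p6 := tn_nonneg H (10 / 32) x
      have p7 := tn_nonneg H (30 / 32) x
      have lo_le : (leverSh q σ).lo x ≤ cham q 0 x + tents (q ^ 3) (ldents q σ) x +
          (tn H (10 / 32) x + tn H (30 / 32) x) := by
        rw [e2]
        refine max_le (max_le (by linarith only [hk, p4, p6, p7]) (by linarith only [p5, p6, p7])) (max_le (by linarith only [hk, p1, p4, p5, p7]) (by linarith))
      have hS : 1 - cham q 0 x - (1 - piv q σ) / (2 * q ^ 3) * tn (2 * q ^ 3) (20 / 32) x ≤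
          (leverSh q σ).hi x := by
        rw [e1]
        have hc : 0 ≤ (1 - piv q σ) / (2 * q ^ 3) := div_nonneg (by linarith only [hpiv.2]) (by positivity)
        refine le_min ?_ ?_
        · have := mul_nonneg hc (tn_nonneg (2 * q ^ 3) (20 / 32) x)
          linarith only [this]
        · have e3 : (1 - piv q σ) * |x - 20 / 32| / (2 * q ^ 3) =
            (1 - piv q σ) / (2 * q ^ 3) * |x - 20 / 32| := by ring
          have e4 : (1 - piv q σ) / (2 * q ^ 3) * (2 * q ^ 3) = 1 - piv q σ := by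
            field_simp
          have e5 : 2 * q ^ 3 - |x - 20 / 32| ≤ tn (2 * q ^ 3) (20 / 32) x := le_max_right _ _
          have e6 := mul_le_mul_of_nonneg_left e5 hc
          rw [mul_sub, e4] at e6
          rw [e3]
          linarith only [p5, e6]
      linarith only [p3, lo_le, hS]
  refine le_trans ?_ h2
  have hc2 : IntervalIntegrable (fun x => 2 * cham q 0 x) volume 0 1 :=
    (continuous_const.mul (cham_cont _ _)).intervalIntegrable _ _
  have hc3 : IntervalIntegrable (fun x => (1 - piv q σ) / (2 * q ^ 3) * tn (2 * q ^ 3) (20 / 32) x)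
      volume 0 1 := (continuous_const.mul (tn_cont _ _)).intervalIntegrable _ _
  have hc4 : IntervalIntegrable (fun x => bs (q ^ 3) (ldents q σ) x) volume 0 1 :=
    (bs_cont _ _).intervalIntegrable _ _
  have hc5 : IntervalIntegrable (fun x => tn H (10 / 32) x) volume 0 1 :=
    (tn_cont _ _).intervalIntegrable _ _
  have hc6 : IntervalIntegrable (fun x => tn H (30 / 32) x) volume 0 1 :=
    (tn_cont _ _).intervalIntegrable _ _
  have hc1 : IntervalIntegrable (fun _ : ℝ => 1 - q ^ 3) volume 0 1 := by simp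
  rw [intervalIntegral.integral_sub (((hc1.sub hc2).sub hc3).sub hc4) (hc5.add hc6),
    intervalIntegral.integral_sub ((hc1.sub hc2).sub hc3) hc4,
    intervalIntegral.integral_sub (hc1.sub hc2) hc3, intervalIntegral.integral_sub hc1 hc2,
    intervalIntegral.integral_add hc5 hc6, intervalIntegral.integral_const,
    intervalIntegral.integral_const_mul, intervalIntegral.integral_const_mul]
  have k1 : ((1:ℝ) - 0) • (1 - q ^ 3) = 1 - q ^ 3 := by simp
  rw [k1]
  have k2 := int_cham_le (q := q) (xl := 0) (xr := 1) hq zero_le_one le_rfl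
  have k3 := int_tn_le (h := 2 * q ^ 3) (p := 20 / 32) (a := 0) (b := 1) (by positivity)
    zero_le_one
  have k4 : (1 - piv q σ) / (2 * q ^ 3) * ∫ x in (0:ℝ)..1, tn (2 * q ^ 3) (20 / 32) x ≤
      2 * q ^ 3 := by
    have hc : 0 ≤ (1 - piv q σ) / (2 * q ^ 3) := div_nonneg (by linarith [hpiv.2]) (by positivity)
    refine (mul_le_mul_of_nonneg_left k3 hc).trans ?_
    have : (1 - piv q σ) / (2 * q ^ 3) * (2 * q ^ 3) ^ 2 = (1 - piv q σ) * (2 * q ^ 3) := by
      field_simp
    rw [this]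
    nlinarith only [hk, hpiv.1]
  have k5 : ∫ x in (0:ℝ)..1, bs (q ^ 3) (ldents q σ) x ≤ (ldents q σ).length * (q + q ^ 3) ^ 2 := by
    refine (int_bs_le (fun d hd => (hLd d hd).1) zero_le_one).trans ?_
    refine sum_map_le fun d hd => ?_
    have := hLd d hd
    exact pow_le_pow_left₀ (by linarith only [this.1]) this.2 2
  have k6 := int_tn_le (h := H) (p := 10 / 32) (a := 0) (b := 1) hH0 zero_le_one
  have k7 := int_tn_le (h := H) (p := 30 / 32) (a := 0) (b := 1) hH0 zero_le_one
  rw [hlen]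
  have k8 : (ldents q σ).length * (q + q ^ 3) ^ 2 ≤
      (ldents q σ).length * q ^ 2 + 2 * (2 * q * q ^ 3 + (q ^ 3) ^ 2) := by
    have : (q + q ^ 3) ^ 2 = q ^ 2 + (2 * q * q ^ 3 + (q ^ 3) ^ 2) := by ring
    rw [this, mul_add]
    have h0 : (0:ℝ) ≤ 2 * q * q ^ 3 + (q ^ 3) ^ 2 := by positivity
    nlinarith only [hL2, h0]
  have k9 : H ^ 2 ≤ q ^ 2 + q ^ 3 * (13 * q) := by
    have hq' : q ≤ 1 / 1000 := by linarith only [hq1]
    have e : H ^ 2 = q ^ 2 + q ^ 3 * (6 * q + 6 * q ^ 2 + 9 * q ^ 3 * (1 + q) ^ 2) := by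
      rw [hH]; ring
    rw [e]
    have e2 : 6 * q + 6 * q ^ 2 + 9 * q ^ 3 * (1 + q) ^ 2 ≤ 13 * q := by
      have a1 : q ^ 2 ≤ q * (1 / 1000) := by nlinarith only [hq, hq1]
      have a2 : (1 + q) ^ 2 ≤ 2 := by linarith only [hq1, a1]
      have a3 : 9 * q ^ 3 * (1 + q) ^ 2 ≤ 9 * q ^ 3 * 2 :=
        mul_le_mul_of_nonneg_left a2 (by positivity)
      linarith only [hk, hkq, a1, a3]
    have := mul_le_mul_of_nonneg_left e2 hk.le
    linarith only [this]
  have k10 : 2 * (2 * q * q ^ 3 + (q ^ 3) ^ 2) + 2 * (q ^ 3 * (13 * q)) + 256 * (q ^ 3) ^ 2 ≤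
      q ^ 3 := by
    have : 2 * (2 * q * q ^ 3 + (q ^ 3) ^ 2) + 2 * (q ^ 3 * (13 * q)) + 256 * (q ^ 3) ^ 2 =
      q ^ 3 * (30 * q + 258 * q ^ 3) := by ring
    rw [this]
    have h3 : 30 * q + 258 * q ^ 3 ≤ 1 := by
      have : q ^ 3 ≤ q := by linarith only [hk, hkq]
      linarith only [hq1, hkq]
    nlinarith only [hq1, hkq, hk]
  linarith only [k2, k4, k5, k6, k7, k8, k9, k10]

end Pool.Agent.Helper14_Pack
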