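import Pool.Agent.Helper2_Pack.S1

/-!
# Areas of regions between graphs, integrals of tents
-/

namespace Pool.Agent.Helper14_Pack

open MeasureTheory Set Pool.Agent.Helper2_Pack

/-- the region between two graphs -/
def btw (a b : ℝ) (f g : ℝ → ℝ) : Set ℂ :=
  {z | a ≤ z.re ∧ z.re ≤ b ∧ f z.re ≤ z.im ∧ z.im ≤ g z.re}

theorem btw_closed {a b : ℝ} {f g : ℝ → ℝ} (hf : Continuous f) (hg : Continuous g) :
    IsClosed (btw a b f g) := by
  have h1 := Complex.continuous_re
  have h2 := Complex.continuous_im
  exact ((isClosed_le continuous_const h1).inter ((isClosed_le h1 continuous_const).inter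
    ((isClosed_le (hf.comp h1) h2).inter (isClosed_le h2 (hg.comp h1)))))

theorem vol_btw_lint (a b : ℝ) {f g : ℝ → ℝ} (hf : Continuous f) (hg : Continuous g) :
    volume (btw a b f g) = ∫⁻ x in Icc a b, ENNReal.ofReal (g x - f x) := by
  have h1 := Complex.volume_preserving_equiv_real_prod
  set S : Set (ℝ × ℝ) := {p | a ≤ p.1 ∧ p.1 ≤ b ∧ f p.1 ≤ p.2 ∧ p.2 ≤ g p.1} with hS
  have hm : MeasurableSet S := by
    have hc : IsClosed S :=
      ((isClosed_le continuous_const continuous_fst).inter
        ((isClosed_le continuous_fst continuous_const).inter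
        ((isClosed_le (hf.comp continuous_fst) continuous_snd).inter
          (isClosed_le continuous_snd (hg.comp continuous_fst)))))
    exact hc.measurableSet
  have e : btw a b f g = Complex.measurableEquivRealProd ⁻¹' S := rfl
  rw [e, h1.measure_preimage hm.nullMeasurableSet, Measure.volume_eq_prod,
    Measure.prod_apply hm]
  have h2 : ∀ x : ℝ, volume (Prod.mk x ⁻¹' S) =
      (Icc a b).indicator (fun x => ENNReal.ofReal (g x - f x)) x := by
    intro x
    by_cases hx : x ∈ Icc a b
    · have : Prod.mk x ⁻¹' S = Icc (f x) (g x) := by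
        ext y
        simp only [hS, mem_preimage, Set.mem_ofPred_eq, mem_Icc]
        exact ⟨fun h => h.2.2, fun h => ⟨hx.1, hx.2, h⟩⟩
      rw [this, Real.volume_Icc, indicator_of_mem hx]
    · have : Prod.mk x ⁻¹' S = ∅ := by
        ext y
        simp only [hS, mem_preimage, Set.mem_ofPred_eq, mem_empty_iff_false, iff_false]
        exact fun h => hx ⟨h.1, h.2.1⟩
      rw [this, measure_empty, indicator_of_notMem hx]
  simp_rw [h2]
  rw [lintegral_indicator measurableSet_Icc]

theorem vol_btw {a b : ℝ} (hab : a ≤ b) {f g : ℝ → ℝ} (hf : Continuous f) (hg : Continuous g)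
    (hfg : ∀ x, a ≤ x → x ≤ b → f x ≤ g x) :
    volume (btw a b f g) = ENNReal.ofReal (∫ x in a..b, (g x - f x)) := by
  rw [vol_btw_lint a b hf hg, intervalIntegral.integral_of_le hab,
    ← integral_Icc_eq_integral_Ioc, ofReal_integral_eq_lintegral_ofReal]
  · exact ((hg.sub hf).continuousOn).integrableOn_compact isCompact_Icc
  · refine (ae_restrict_iff' measurableSet_Icc).2 (Filter.Eventually.of_forall fun x hx => ?_)
    exact sub_nonneg.2 (hfg x hx.1 hx.2)

theorem vol_btw_ge {a b : ℝ} (hab : a ≤ b) {f g : ℝ → ℝ} (hf : Continuous f) (hg : Continuous g) :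
    ENNReal.ofReal (∫ x in a..b, (g x - f x)) ≤ volume (btw a b f g) := by
  have hint : IntegrableOn (fun x => g x - f x) (Icc a b) :=
    ((hg.sub hf).continuousOn).integrableOn_compact isCompact_Icc
  rw [vol_btw_lint a b hf hg, intervalIntegral.integral_of_le hab,
    ← integral_Icc_eq_integral_Ioc, integral_eq_lintegral_pos_part_sub_lintegral_neg_part hint]
  refine le_trans (ENNReal.ofReal_le_ofReal (sub_le_self _ ENNReal.toReal_nonneg)) ?_
  exact ENNReal.ofReal_toReal_le

/-! ### tents -/

/-- a tent -/
noncomputable def tn (h p x : ℝ) : ℝ := max 0 (h - |x - p|)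

theorem tn_cont (h p : ℝ) : Continuous (tn h p) := by
  unfold tn
  fun_prop

theorem tn_nonneg (h p x : ℝ) : 0 ≤ tn h p x := le_max_left _ _

theorem tn_zero {h p x : ℝ} (hx : h ≤ |x - p|) : tn h p x = 0 :=
  max_eq_left (by linarith)

theorem int_tn_eq {h p a b : ℝ} (hh : 0 ≤ h) (ha : a ≤ p - h) (hb : p + h ≤ b) :
    ∫ x in a..b, tn h p x = h ^ 2 := by
  have hi : ∀ c d, IntervalIntegrable (tn h p) volume c d :=
    fun c d => (tn_cont h p).intervalIntegrable c d
  rw [← intervalIntegral.integral_add_adjacent_intervals (hi a (p - h)) (hi (p - h) b),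
    ← intervalIntegral.integral_add_adjacent_intervals (hi (p - h) p) (hi p b),
    ← intervalIntegral.integral_add_adjacent_intervals (hi p (p + h)) (hi (p + h) b)]
  have e1 : ∫ x in a..(p - h), tn h p x = 0 := by
    rw [intervalIntegral.integral_congr (g := fun _ => (0 : ℝ))]
    · simp
    · intro x hx
      rw [uIcc_of_le ha] at hx
      refine tn_zero ?_
      rw [abs_of_nonpos (by linarith [hx.2])]
      linarith [hx.2]
  have e2 : ∫ x in (p - h)..p, tn h p x = h ^ 2 / 2 := by
    rw [intervalIntegral.integral_congr (g := fun x => x - (p - h))]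
    · rw [intervalIntegral.integral_sub (by simp) (by simp), integral_id,
        intervalIntegral.integral_const]
      simp
      ring
    · intro x hx
      rw [uIcc_of_le (by linarith)] at hx
      show max 0 (h - |x - p|) = _
      rw [abs_of_nonpos (by linarith [hx.2]), max_eq_right (by linarith [hx.1])]
      ring
  have e3 : ∫ x in p..(p + h), tn h p x = h ^ 2 / 2 := by
    rw [intervalIntegral.integral_congr (g := fun x => (p + h) - x)]
    · rw [intervalIntegral.integral_sub (by simp) (by simp), integral_id,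
        intervalIntegral.integral_const]
      simp
      ring
    · intro x hx
      rw [uIcc_of_le (by linarith)] at hx
      show max 0 (h - |x - p|) = _
      rw [abs_of_nonneg (by linarith [hx.1]), max_eq_right (by linarith [hx.2])]
      ring
  have e4 : ∫ x in (p + h)..b, tn h p x = 0 := by
    rw [intervalIntegral.integral_congr (g := fun _ => (0 : ℝ))]
    · simp
    · intro x hx
      rw [uIcc_of_le hb] at hx
      refine tn_zero ?_
      rw [abs_of_nonneg (by linarith [hx.1])]
      linarith [hx.1]
  rw [e1, e2, e3, e4]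
  ring

theorem int_tn_le {h p a b : ℝ} (hh : 0 ≤ h) (hab : a ≤ b) : ∫ x in a..b, tn h p x ≤ h ^ 2 := by
  rw [← int_tn_eq (a := min a (p - h)) (b := max b (p + h)) hh (min_le_right _ _) (le_max_right _ _)]
  refine intervalIntegral.integral_mono_interval (min_le_left _ _) hab (le_max_left _ _)
    (Filter.Eventually.of_forall fun x => tn_nonneg h p x) ((tn_cont h p).intervalIntegrable _ _)

/-- sums of tents over a level -/
noncomputable def bs (g : ℝ) (L : List (ℝ × ℝ)) (x : ℝ) : ℝ :=
  (L.map fun d => tn (d.2 - g) d.1 x).sum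

theorem bs_nil (g : ℝ) (x : ℝ) : bs g [] x = 0 := rfl

theorem bs_cons (g : ℝ) (d : ℝ × ℝ) (L : List (ℝ × ℝ)) (x : ℝ) :
    bs g (d :: L) x = tn (d.2 - g) d.1 x + bs g L x := by
  simp [bs]

theorem bs_nonneg (g : ℝ) (L : List (ℝ × ℝ)) (x : ℝ) : 0 ≤ bs g L x := by
  induction L with
  | nil => exact le_rfl
  | cons d L ih =>
    rw [bs_cons]
    exact add_nonneg (tn_nonneg _ _ _) ih

theorem bs_cont (g : ℝ) (L : List (ℝ × ℝ)) : Continuous (bs g L) := by
  induction L with
  | nil => exact continuous_const
  | cons d L ih =>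
    have : bs g (d :: L) = fun x => tn (d.2 - g) d.1 x + bs g L x := by
      funext x
      exact bs_cons g d L x
    rw [this]
    exact (tn_cont _ _).add ih

theorem tents_cont (g : ℝ) (L : List (ℝ × ℝ)) : Continuous (tents g L) := by
  induction L with
  | nil => exact continuous_const
  | cons d L ih =>
    have : tents g (d :: L) = fun x => max (d.2 - |x - d.1|) (tents g L x) := rfl
    rw [this]
    exact Continuous.max (by fun_prop) ih

theorem le_tents_base (g : ℝ) (L : List (ℝ × ℝ)) (x : ℝ) : g ≤ tents g L x := by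
  induction L with
  | nil => exact le_rfl
  | cons d L ih => exact le_max_of_le_right ih

theorem tents_le (g : ℝ) (L : List (ℝ × ℝ)) (x : ℝ) : tents g L x ≤ g + bs g L x := by
  induction L with
  | nil => simp [tents, bs]
  | cons d L ih =>
    rw [bs_cons]
    show max (d.2 - |x - d.1|) (tents g L x) ≤ _
    refine max_le ?_ ?_
    · have h1 : d.2 - g - |x - d.1| ≤ tn (d.2 - g) d.1 x := le_max_right _ _
      have h2 := bs_nonneg g L x
      linarith
    · have h1 := tn_nonneg (d.2 - g) d.1 x
      linarith

/-- the tents are disjoint -/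
def Sep (g : ℝ) (L : List (ℝ × ℝ)) : Prop :=
  L.Pairwise fun d e => (d.2 - g) + (e.2 - g) ≤ |d.1 - e.1|

theorem le_tents {g : ℝ} {L : List (ℝ × ℝ)} (hs : Sep g L) (x : ℝ) :
    g + bs g L x ≤ tents g L x := by
  induction L with
  | nil => simp [tents, bs]
  | cons d L ih =>
    have hs' := List.pairwise_cons.1 hs
    have h0 := ih hs'.2
    rw [bs_cons]
    show _ ≤ max (d.2 - |x - d.1|) (tents g L x)
    by_cases hd : d.2 - g ≤ |x - d.1|
    · rw [tn_zero hd, zero_add]
      exact h0.trans (le_max_right _ _)
    · push Not at hd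
      have h1 : bs g L x = 0 := by
        unfold bs
        apply List.sum_eq_zero
        intro y hy
        obtain ⟨e, he, rfl⟩ := List.mem_map.1 hy
        apply tn_zero
        have h2 := hs'.1 e he
        have h3 : |d.1 - e.1| ≤ |x - d.1| + |x - e.1| := by
          have : d.1 - e.1 = -(x - d.1) + (x - e.1) := by ring
          rw [this]
          refine (abs_add_le _ _).trans ?_
          rw [abs_neg]
        linarith
      rw [h1, add_zero]
      refine le_max_of_le_left ?_
      have : tn (d.2 - g) d.1 x = d.2 - g - |x - d.1| := max_eq_right (by linarith)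
      rw [this]
      linarith

theorem int_bs_le {g : ℝ} {L : List (ℝ × ℝ)} (hL : ∀ d ∈ L, g ≤ d.2) {a b : ℝ} (hab : a ≤ b) :
    ∫ x in a..b, bs g L x ≤ (L.map fun d => (d.2 - g) ^ 2).sum := by
  induction L with
  | nil => simp [bs]
  | cons d L ih =>
    have h1 := ih fun e he => hL e (List.mem_cons_of_mem _ he)
    have h2 : ∫ x in a..b, bs g (d :: L) x =
        (∫ x in a..b, tn (d.2 - g) d.1 x) + ∫ x in a..b, bs g L x := by
      simp_rw [bs_cons]
      exact intervalIntegral.integral_add ((tn_cont _ _).intervalIntegrable _ _)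
        ((bs_cont _ _).intervalIntegrable _ _)
    rw [h2, List.map_cons, List.sum_cons]
    exact add_le_add (int_tn_le (sub_nonneg.2 (hL d (by simp))) hab) h1

theorem int_bs_eq {g : ℝ} {L : List (ℝ × ℝ)} {a b : ℝ}
    (hL : ∀ d ∈ L, g ≤ d.2 ∧ a ≤ d.1 - (d.2 - g) ∧ d.1 + (d.2 - g) ≤ b) :
    ∫ x in a..b, bs g L x = (L.map fun d => (d.2 - g) ^ 2).sum := by
  induction L with
  | nil => simp [bs]
  | cons d L ih =>
    have h1 := ih fun e he => hL e (List.mem_cons_of_mem _ he)
    have h2 : ∫ x in a..b, bs g (d :: L) x =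
        (∫ x in a..b, tn (d.2 - g) d.1 x) + ∫ x in a..b, bs g L x := by
      simp_rw [bs_cons]
      exact intervalIntegral.integral_add ((tn_cont _ _).intervalIntegrable _ _)
        ((bs_cont _ _).intervalIntegrable _ _)
    have h3 := hL d (by simp)
    rw [h2, List.map_cons, List.sum_cons, h1, int_tn_eq (sub_nonneg.2 h3.1) h3.2.1 h3.2.2]

end Pool.Agent.Helper14_Pack
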